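import Mathlib

-- part Pool.Agent.Lib.MP_943ac9_co.Arctan
section

/-! Analytic lemma: sign of the argument of `∏ (t + i l_j)` controls `∑ l_j |l_j|`. -/

namespace Pool.Agent.Lib.MP_943ac9_co

open Real Filter Topology Finset

lemma add_mul_I_polar {t : ℝ} (ht : 0 < t) (l : ℝ) :
    ((t : ℂ) + (l : ℂ) * Complex.I) =
      ((t / cos (arctan (l / t)) : ℝ) : ℂ) * Complex.exp ((arctan (l / t) : ℝ) * Complex.I) := by
  have hc : cos (arctan (l / t)) ≠ 0 := (cos_arctan_pos _).ne'
  have htan : sin (arctan (l / t)) = l / t * cos (arctan (l / t)) := by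
    have := tan_arctan (l / t)
    rw [tan_eq_sin_div_cos] at this
    field_simp at this ⊢
    linarith
  rw [Complex.exp_mul_I]
  apply Complex.ext
  · simp only [Complex.add_re, Complex.ofReal_re, Complex.mul_re, Complex.I_re, mul_zero,
      Complex.ofReal_im, Complex.I_im, mul_one, sub_self, add_zero, Complex.cos_ofReal_re,
      Complex.sin_ofReal_re, Complex.sin_ofReal_im, Complex.add_im, Complex.cos_ofReal_im,
      Complex.mul_im, zero_add, zero_mul, sub_zero]
    field_simp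
  · simp only [Complex.add_im, Complex.ofReal_im, Complex.mul_im, Complex.ofReal_re, Complex.I_im,
      mul_one, Complex.I_re, mul_zero, add_zero, zero_add, Complex.cos_ofReal_im,
      Complex.sin_ofReal_re, Complex.sin_ofReal_im, Complex.add_re, Complex.cos_ofReal_re,
      Complex.mul_re, sub_self, zero_mul]
    rw [htan]
    field_simp

lemma prod_polar {ι : Type*} [Fintype ι] (l : ι → ℝ) {t : ℝ} (ht : 0 < t) :
    ∃ R : ℝ, 0 < R ∧
      (∏ j, ((t : ℂ) + (l j : ℂ) * Complex.I)).re = R * cos (∑ j, arctan (l j / t)) ∧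
      (∏ j, ((t : ℂ) + (l j : ℂ) * Complex.I)).im = R * sin (∑ j, arctan (l j / t)) := by
  refine ⟨∏ j, t / cos (arctan (l j / t)),
    Finset.prod_pos fun j _ => div_pos ht (cos_arctan_pos _), ?_⟩
  have h : (∏ j, ((t : ℂ) + (l j : ℂ) * Complex.I)) =
      ((∏ j, t / cos (arctan (l j / t)) : ℝ) : ℂ) *
        Complex.exp (((∑ j, arctan (l j / t) : ℝ) : ℂ) * Complex.I) := by
    simp only [add_mul_I_polar ht]
    rw [Finset.prod_mul_distrib, ← Complex.exp_sum, ← Finset.sum_mul]
    push_cast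
    rfl
  rw [h]
  constructor
  · rw [Complex.re_ofReal_mul, Complex.exp_ofReal_mul_I_re]
  · rw [Complex.im_ofReal_mul, Complex.exp_ofReal_mul_I_im]

lemma theta_nonpos {ι : Type*} [Fintype ι] (l : ι → ℝ)
    (h : ∀ t : ℝ, 0 < t → (∏ j, ((t : ℂ) + (l j : ℂ) * Complex.I)).re ≠ 0 ∧
      (∏ j, ((t : ℂ) + (l j : ℂ) * Complex.I)).re *
        (∏ j, ((t : ℂ) + (l j : ℂ) * Complex.I)).im ≤ 0)
    {t : ℝ} (ht : 0 < t) : ∑ j, arctan (l j / t) ≤ 0 := by
  set θ : ℝ → ℝ := fun s => ∑ j, arctan (l j / s) with hθ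
  have hcos : ∀ s, 0 < s → cos (θ s) ≠ 0 := by
    intro s hs hc
    obtain ⟨R, -, h1, -⟩ := prod_polar l hs
    apply (h s hs).1
    rw [h1]; simp only [hθ] at hc; rw [hc, mul_zero]
  have hlim : Tendsto θ atTop (𝓝 0) := by
    have : Tendsto θ atTop (𝓝 (∑ j : ι, arctan 0)) := by
      apply tendsto_finsetSum
      intro j _
      exact (continuous_arctan.tendsto 0).comp (tendsto_const_nhds.div_atTop tendsto_id)
    simpa using this
  have habs : |θ t| < π / 2 := by
    by_contra hcon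
    push Not at hcon
    have hev : ∀ᶠ s in atTop, |θ s| < π / 2 := by
      have := hlim.abs
      rw [abs_zero] at this
      exact this.eventually (gt_mem_nhds (by positivity))
    obtain ⟨T, hT1, hT2⟩ := (hev.and (eventually_ge_atTop t)).exists
    have hcont : ContinuousOn (fun s => |θ s|) (Set.Icc t T) := by
      apply ContinuousOn.abs
      apply continuousOn_finsetSum
      intro j _
      apply continuous_arctan.comp_continuousOn
      apply continuousOn_const.div continuousOn_id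
      intro s hs
      exact (lt_of_lt_of_le ht hs.1).ne'
    obtain ⟨s, hs, hs2⟩ := intermediate_value_Icc' hT2 hcont ⟨hT1.le, hcon⟩
    apply hcos s (lt_of_lt_of_le ht hs.1)
    rw [← cos_abs]
    simp only at hs2
    rw [hs2, cos_pi_div_two]
  obtain ⟨R, hR, h1, h2⟩ := prod_polar l ht
  have h3 := (h t ht).2
  rw [h1, h2] at h3
  have hc : 0 < cos (θ t) := cos_pos_of_mem_Ioo ⟨(abs_lt.1 habs).1, (abs_lt.1 habs).2⟩
  by_contra hpos
  push Not at hpos
  have hs : 0 < sin (θ t) :=
    sin_pos_of_pos_of_lt_pi hpos (by linarith [(abs_lt.1 habs).2, pi_pos])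
  have : 0 < R * cos (θ t) * (R * sin (θ t)) := by positivity
  exact absurd h3 (not_le.2 this)

lemma sub_arctan_bound_nonneg {x : ℝ} (hx : 0 ≤ x) : 0 ≤ x - arctan x ∧ x - arctan x ≤ x ^ 3 := by
  have h0 : 0 ≤ arctan x := by
    rw [← arctan_zero]; exact arctan_strictMono.monotone hx
  have h1 : arctan x ≤ x := by
    have := le_tan h0 (arctan_lt_pi_div_two x)
    rwa [tan_arctan] at this
  have h2 : x / (1 + x ^ 2) ≤ arctan x := by
    have hs := sin_le (show 0 ≤ 2 * arctan x by linarith)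
    rw [sin_two_mul, sin_arctan, cos_arctan] at hs
    have hq : √(1 + x ^ 2) * √(1 + x ^ 2) = 1 + x ^ 2 := mul_self_sqrt (by positivity)
    have hpos : 0 < √(1 + x ^ 2) := sqrt_pos.2 (by positivity)
    have : 2 * (x / √(1 + x ^ 2)) * (1 / √(1 + x ^ 2)) = 2 * (x / (1 + x ^ 2)) := by
      rw [← hq, sqrt_mul_self hpos.le]; field_simp
    linarith
  refine ⟨by linarith, ?_⟩
  have h3 : x - x ^ 3 ≤ x / (1 + x ^ 2) := by
    rw [le_div_iff₀ (by positivity)]
    nlinarith [pow_nonneg hx 5]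
  linarith

lemma abs_sub_arctan_le (x : ℝ) : |x - arctan x| ≤ |x| ^ 3 := by
  rcases le_total 0 x with hx | hx
  · obtain ⟨h1, h2⟩ := sub_arctan_bound_nonneg hx
    rw [abs_of_nonneg h1, abs_of_nonneg hx]; exact h2
  · obtain ⟨h1, h2⟩ := sub_arctan_bound_nonneg (neg_nonneg.2 hx)
    rw [arctan_neg] at h1 h2
    rw [abs_of_nonpos hx, abs_of_nonpos (by linarith)]; linarith

noncomputable def FF (l T : ℝ) : ℝ :=
  l * T / 2 - T ^ 2 / 2 * arctan (l / T) + l ^ 2 / 2 * arctan (T / l)

lemma hasDerivAt_FF (l : ℝ) {T : ℝ} (hT : 0 < T) :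
    HasDerivAt (FF l) (l - T * arctan (l / T)) T := by
  rcases eq_or_ne l 0 with rfl | hl
  · have : FF 0 = fun _ => 0 := by
      funext s; simp [FF]
    rw [this]; simpa using hasDerivAt_const T (0 : ℝ)
  · have h1 : HasDerivAt (fun s : ℝ => l / s) (-l / T ^ 2) T := by
      have := (hasDerivAt_inv hT.ne').const_mul l
      simp only [div_eq_mul_inv]
      exact this.congr_deriv (by ring)
    have h2 : HasDerivAt (fun s : ℝ => s / l) (1 / l) T := (hasDerivAt_id T).div_const l
    have h3 := h1.arctan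
    have h4 := h2.arctan
    have h5 : HasDerivAt (fun s : ℝ => s ^ 2 / 2) T T := by
      have := ((hasDerivAt_id T).pow 2).div_const 2
      exact this.congr_deriv (by simp)
    have h6 : HasDerivAt (fun s : ℝ => l * s / 2) (l / 2) T := by
      have := ((hasDerivAt_id T).const_mul l).div_const 2
      simpa using this
    have h7 := (h6.sub (h5.mul h3)).add (h4.const_mul (l ^ 2 / 2))
    refine HasDerivAt.congr_deriv h7 ?_
    have : 0 < T ^ 2 + l ^ 2 := by positivity
    field_simp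
    ring

lemma tendsto_FF_zero (l : ℝ) : Tendsto (FF l) (𝓝[>] 0) (𝓝 0) := by
  have h1 : Tendsto (fun T : ℝ => l * T / 2) (𝓝[>] 0) (𝓝 0) := by
    have : Tendsto (fun T : ℝ => l * T / 2) (𝓝 0) (𝓝 (l * 0 / 2)) :=
      Continuous.tendsto (by fun_prop) 0
    simpa using this.mono_left nhdsWithin_le_nhds
  have h2 : Tendsto (fun T : ℝ => T ^ 2 / 2 * arctan (l / T)) (𝓝[>] 0) (𝓝 0) := by
    have hb : Tendsto (fun T : ℝ => T ^ 2 / 2 * (π / 2)) (𝓝[>] 0) (𝓝 0) := by
      have : Tendsto (fun T : ℝ => T ^ 2 / 2 * (π / 2)) (𝓝 0) (𝓝 ((0:ℝ) ^ 2 / 2 * (π / 2))) :=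
        Continuous.tendsto (by fun_prop) 0
      simpa using this.mono_left nhdsWithin_le_nhds
    apply squeeze_zero_norm _ hb
    intro T
    rw [Real.norm_eq_abs, abs_mul, abs_of_nonneg (by positivity : 0 ≤ T ^ 2 / 2)]
    apply mul_le_mul_of_nonneg_left _ (by positivity)
    exact abs_le.2 ⟨(neg_pi_div_two_lt_arctan _).le, (arctan_lt_pi_div_two _).le⟩
  have h3 : Tendsto (fun T : ℝ => l ^ 2 / 2 * arctan (T / l)) (𝓝[>] 0) (𝓝 0) := by
    have : Tendsto (fun T : ℝ => l ^ 2 / 2 * arctan (T / l)) (𝓝 0)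
        (𝓝 (l ^ 2 / 2 * arctan (0 / l))) :=
      Continuous.tendsto (by fun_prop) 0
    simpa using this.mono_left nhdsWithin_le_nhds
  have := (h1.sub h2).add h3
  unfold FF
  simpa using this

lemma tendsto_FF_atTop (l : ℝ) : Tendsto (FF l) atTop (𝓝 (π / 4 * (l * |l|))) := by
  have h1 : Tendsto (fun T : ℝ => l * T / 2 - T ^ 2 / 2 * arctan (l / T)) atTop (𝓝 0) := by
    have hb : Tendsto (fun T : ℝ => |l| ^ 3 / 2 / T) atTop (𝓝 0) :=
      tendsto_const_nhds.div_atTop tendsto_id
    apply squeeze_zero_norm' _ hb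
    filter_upwards [eventually_gt_atTop 0] with T hT
    have e : l * T / 2 - T ^ 2 / 2 * arctan (l / T) = T ^ 2 / 2 * (l / T - arctan (l / T)) := by
      field_simp
    rw [e, Real.norm_eq_abs, abs_mul, abs_of_nonneg (by positivity : 0 ≤ T ^ 2 / 2)]
    calc T ^ 2 / 2 * |l / T - arctan (l / T)| ≤ T ^ 2 / 2 * |l / T| ^ 3 :=
          mul_le_mul_of_nonneg_left (abs_sub_arctan_le _) (by positivity)
      _ = |l| ^ 3 / 2 / T := by
          rw [abs_div, abs_of_pos hT]; field_simp
  have h2 : Tendsto (fun T : ℝ => l ^ 2 / 2 * arctan (T / l)) atTop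
      (𝓝 (π / 4 * (l * |l|))) := by
    rcases lt_trichotomy l 0 with hl | rfl | hl
    · have h := (tendsto_arctan_atBot.mono_right nhdsWithin_le_nhds).comp
        (tendsto_id.atTop_div_const_of_neg hl)
      have := h.const_mul (l ^ 2 / 2)
      have e : π / 4 * (l * |l|) = l ^ 2 / 2 * -(π / 2) := by rw [abs_of_neg hl]; ring
      rw [e]; exact this
    · simp
    · have h := (tendsto_arctan_atTop.mono_right nhdsWithin_le_nhds).comp
        (tendsto_id.atTop_div_const hl)
      have := h.const_mul (l ^ 2 / 2)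
      have e : π / 4 * (l * |l|) = l ^ 2 / 2 * (π / 2) := by rw [abs_of_pos hl]; ring
      rw [e]; exact this
  have := h1.add h2
  unfold FF
  simpa using this

theorem sum_mul_abs_nonneg {ι : Type*} [Fintype ι] (l : ι → ℝ) (h0 : ∑ j, l j = 0)
    (h : ∀ t : ℝ, 0 < t → (∏ j, ((t : ℂ) + (l j : ℂ) * Complex.I)).re ≠ 0 ∧
      (∏ j, ((t : ℂ) + (l j : ℂ) * Complex.I)).re *
        (∏ j, ((t : ℂ) + (l j : ℂ) * Complex.I)).im ≤ 0) :
    0 ≤ ∑ j, l j * |l j| := by
  set G : ℝ → ℝ := fun T => ∑ j, FF (l j) T with hG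
  have hd : ∀ T, 0 < T → HasDerivAt G (∑ j, (l j - T * arctan (l j / T))) T := by
    intro T hT
    exact HasDerivAt.fun_sum fun j _ => hasDerivAt_FF (l j) hT
  have hmono : MonotoneOn G (Set.Ioi 0) := by
    apply monotoneOn_of_deriv_nonneg (convex_Ioi 0)
    · exact fun T hT => (hd T hT).continuousAt.continuousWithinAt
    · rw [interior_Ioi]
      exact fun T hT => (hd T hT).differentiableAt.differentiableWithinAt
    · rw [interior_Ioi]
      intro T hT
      rw [(hd T hT).deriv, Finset.sum_sub_distrib, h0, ← Finset.mul_sum]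
      have := theta_nonpos l h hT
      have hT' : 0 < T := hT
      nlinarith
  have hz : Tendsto G (𝓝[>] 0) (𝓝 0) := by
    have : Tendsto G (𝓝[>] 0) (𝓝 (∑ j : ι, 0)) :=
      tendsto_finsetSum _ fun j _ => tendsto_FF_zero (l j)
    simpa using this
  have hpos : ∀ T, 0 < T → 0 ≤ G T := by
    intro T hT
    apply le_of_tendsto hz
    filter_upwards [Ioo_mem_nhdsGT hT] with s hs
    exact hmono hs.1 hT hs.2.le
  have hinf : Tendsto G atTop (𝓝 (∑ j, π / 4 * (l j * |l j|))) :=
    tendsto_finsetSum _ fun j _ => tendsto_FF_atTop (l j)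
  have := ge_of_tendsto hinf (by
    filter_upwards [eventually_gt_atTop 0] with T hT using hpos T hT)
  rw [← Finset.mul_sum] at this
  by_contra hc
  push Not at hc
  have := mul_neg_of_pos_of_neg (show 0 < π / 4 by positivity) hc
  linarith

end Pool.Agent.Lib.MP_943ac9_co
end

-- part Pool.Agent.Lib.MP_943ac9_co.Spec
section

/-! Spectral lemmas: weighted triangle with bipartite pieces attached has `s⁻ ≤ s⁺`. -/

namespace Pool.Agent.Lib.MP_943ac9_co

open Matrix Finset

variable {V : Type*} [Fintype V] [DecidableEq V]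

lemma exists_spec {W : Matrix V V ℝ} (hW : W.IsHermitian) :
    ∃ U : Matrix V V ℝ, Uᵀ * U = 1 ∧ U * Uᵀ = 1 ∧ W = U * diagonal hW.eigenvalues * Uᵀ := by
  refine ⟨(hW.eigenvectorUnitary : Matrix V V ℝ), ?_, ?_, ?_⟩
  · have := Unitary.coe_star_mul_self hW.eigenvectorUnitary
    simpa [star_eq_conjTranspose] using this
  · have := Unitary.coe_mul_star_self hW.eigenvectorUnitary
    simpa [star_eq_conjTranspose] using this
  · have := hW.spectral_theorem
    rw [Unitary.conjStarAlgAut_apply] at this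
    simpa [star_eq_conjTranspose] using this

/-- complexification of a real matrix -/
noncomputable abbrev cx {m n : Type*} (A : Matrix m n ℝ) : Matrix m n ℂ := A.map Complex.ofReal

lemma cx_mul {m n k : Type*} [Fintype n] (A : Matrix m n ℝ) (B : Matrix n k ℝ) :
    cx (A * B) = cx A * cx B := by
  ext i j; simp [Matrix.mul_apply]

lemma det_shift {W : Matrix V V ℝ} (hW : W.IsHermitian) (t : ℝ) :
    ((t : ℂ) • (1 : Matrix V V ℂ) + Complex.I • cx W).det =
      ∏ j, ((t : ℂ) + (hW.eigenvalues j : ℂ) * Complex.I) := by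
  obtain ⟨U, h1, h2, h3⟩ := exists_spec hW
  have h1' : cx Uᵀ * cx U = 1 := by
    rw [← cx_mul, h1]; ext i j; by_cases h : i = j <;> simp [one_apply, h]
  have h2' : cx U * cx Uᵀ = 1 := by
    rw [← cx_mul, h2]; ext i j; by_cases h : i = j <;> simp [one_apply, h]
  have e : (t : ℂ) • (1 : Matrix V V ℂ) + Complex.I • cx W =
      cx U * diagonal (fun j => (t : ℂ) + (hW.eigenvalues j : ℂ) * Complex.I) * cx Uᵀ := by
    have : diagonal (fun j => (t : ℂ) + (hW.eigenvalues j : ℂ) * Complex.I) =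
        (t : ℂ) • (1 : Matrix V V ℂ) + Complex.I • cx (diagonal hW.eigenvalues) := by
      ext i j; by_cases h : i = j <;> simp [one_apply, diagonal_apply, h, mul_comm]
    rw [this, Matrix.mul_add, Matrix.add_mul]
    conv_lhs => rw [h3, cx_mul, cx_mul]
    simp [h2']
  rw [e, det_mul, det_mul, mul_comm, ← mul_assoc, ← det_mul, h1', det_one, one_mul, det_diagonal]

lemma spec_inner {U : Matrix V V ℝ} (hU : Uᵀ * U = 1) (f g : V → ℝ) :
    ∑ v, ∑ w, (U * diagonal f * Uᵀ) v w * (U * diagonal g * Uᵀ) v w = ∑ j, f j * g j := by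
  have h : ∑ v, ∑ w, (U * diagonal f * Uᵀ) v w * (U * diagonal g * Uᵀ) v w =
      trace ((U * diagonal f * Uᵀ) * (U * diagonal g * Uᵀ)ᵀ) := by
    simp only [trace, diag_apply, Matrix.mul_apply (M := U * diagonal f * Uᵀ), transpose_apply]
  rw [h]
  simp only [transpose_mul, transpose_transpose, diagonal_transpose]
  have : U * diagonal f * Uᵀ * (U * (diagonal g * Uᵀ)) =
      U * (diagonal f * (Uᵀ * U) * diagonal g) * Uᵀ := by
    simp only [Matrix.mul_assoc]
  rw [this, hU, trace_mul_comm, ← Matrix.mul_assoc, hU]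
  simp [trace]

lemma spec_apply (U : Matrix V V ℝ) (f : V → ℝ) (v w : V) :
    (U * diagonal f * Uᵀ) v w = ∑ j, U v j * f j * U w j := by
  simp [Matrix.mul_apply, diagonal_apply]

/-- Gram matrix -/
def gram {ι : Type*} [Fintype ι] (x : V → ι → ℝ) (v w : V) : ℝ := ∑ k, x v k * x w k

lemma gram_comm {ι : Type*} [Fintype ι] (x : V → ι → ℝ) (v w : V) : gram x v w = gram x w v := by
  simp [gram, mul_comm]

lemma spec_gram_nonneg {ι : Type*} [Fintype ι] (U : Matrix V V ℝ) {f : V → ℝ} (hf : ∀ j, 0 ≤ f j)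
    (x : V → ι → ℝ) : 0 ≤ ∑ v, ∑ w, (U * diagonal f * Uᵀ) v w * gram x v w := by
  have : ∑ v, ∑ w, (U * diagonal f * Uᵀ) v w * gram x v w =
      ∑ j, ∑ k, f j * (∑ v, U v j * x v k) ^ 2 := by
    simp only [spec_apply, gram, sq, Finset.sum_mul_sum]
    simp only [Finset.mul_sum]
    rw [Finset.sum_comm]
    calc ∑ w, ∑ v, ∑ j, ∑ k, U v j * f j * U w j * (x v k * x w k)
        = ∑ w, ∑ j, ∑ k, ∑ v, U v j * f j * U w j * (x v k * x w k) := by
          refine Finset.sum_congr rfl fun w _ => ?_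
          rw [Finset.sum_comm]
          refine Finset.sum_congr rfl fun j _ => ?_
          rw [Finset.sum_comm]
      _ = ∑ j, ∑ k, ∑ w, ∑ v, U v j * f j * U w j * (x v k * x w k) := by
          rw [Finset.sum_comm]
          refine Finset.sum_congr rfl fun j _ => ?_
          rw [Finset.sum_comm]
      _ = _ := by
          refine Finset.sum_congr rfl fun j _ => Finset.sum_congr rfl fun k _ =>
            Finset.sum_congr rfl fun w _ => Finset.sum_congr rfl fun v _ => by ring
  rw [this]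
  exact Finset.sum_nonneg fun j _ => Finset.sum_nonneg fun k _ => mul_nonneg (hf j) (sq_nonneg _)

/-- If `s⁻(W) ≤ s⁺(W)` and `⟨W, B⟩ = -|W|²` for a Gram matrix `B`, then `2|W|² ≤ |B|²`. -/
lemma two_norm_le {ι : Type*} [Fintype ι] {W : Matrix V V ℝ} (hW : W.IsHermitian)
    (h : 0 ≤ ∑ j, hW.eigenvalues j * |hW.eigenvalues j|) (x : V → ι → ℝ)
    (hp : ∑ v, ∑ w, W v w * gram x v w = -∑ v, ∑ w, W v w ^ 2) :
    2 * ∑ v, ∑ w, W v w ^ 2 ≤ ∑ v, ∑ w, gram x v w ^ 2 := by
  obtain ⟨U, h1, -, h3⟩ := exists_spec hW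
  set l := hW.eigenvalues with hl
  set N := U * diagonal (fun j => max (-l j) 0) * Uᵀ with hN
  have hWW : ∑ v, ∑ w, W v w ^ 2 = ∑ j, l j * l j := by
    rw [← spec_inner h1, ← h3]; simp only [sq]
  have hNN : ∑ v, ∑ w, N v w ^ 2 = ∑ j, max (-l j) 0 * max (-l j) 0 := by
    rw [← spec_inner h1]; simp only [sq, hN]
  have hle : 2 * ∑ v, ∑ w, N v w ^ 2 ≤ ∑ v, ∑ w, W v w ^ 2 := by
    rw [hWW, hNN]
    have : ∑ j, l j * |l j| = ∑ j, l j * l j - 2 * ∑ j, max (-l j) 0 * max (-l j) 0 := by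
      rw [Finset.mul_sum, ← Finset.sum_sub_distrib]
      refine Finset.sum_congr rfl fun j _ => ?_
      rcases le_total 0 (l j) with h0 | h0
      · rw [abs_of_nonneg h0, max_eq_right (by linarith)]; ring
      · rw [abs_of_nonpos h0, max_eq_left (by linarith)]; ring
    linarith
  have hpos : 0 ≤ ∑ v, ∑ w, (U * diagonal (fun j => max (l j) 0) * Uᵀ) v w * gram x v w :=
    spec_gram_nonneg U (fun j => le_max_right _ _) x
  have hsum : ∀ v w, (U * diagonal (fun j => max (l j) 0) * Uᵀ) v w = W v w + N v w := by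
    intro v w
    rw [h3, hN, spec_apply, spec_apply, spec_apply, ← Finset.sum_add_distrib]
    refine Finset.sum_congr rfl fun j _ => ?_
    rcases le_total 0 (l j) with h0 | h0
    · rw [max_eq_left h0, max_eq_right (by linarith)]; ring
    · rw [max_eq_right h0, max_eq_left (by linarith)]; ring
  simp only [hsum, add_mul, Finset.sum_add_distrib] at hpos
  rw [hp] at hpos
  have hcs : (∑ v, ∑ w, N v w * gram x v w) ^ 2 ≤
      (∑ v, ∑ w, N v w ^ 2) * ∑ v, ∑ w, gram x v w ^ 2 := by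
    simp only [← Finset.sum_product']
    exact Finset.sum_mul_sq_le_sq_mul_sq _ _ _
  set a := ∑ v, ∑ w, W v w ^ 2
  set b := ∑ v, ∑ w, gram x v w ^ 2
  set c := ∑ v, ∑ w, N v w ^ 2
  set d := ∑ v, ∑ w, N v w * gram x v w
  have ha : 0 ≤ a := Finset.sum_nonneg fun _ _ => Finset.sum_nonneg fun _ _ => sq_nonneg _
  have hb : 0 ≤ b := Finset.sum_nonneg fun _ _ => Finset.sum_nonneg fun _ _ => sq_nonneg _
  rcases ha.eq_or_lt with h0 | h0
  · linarith
  · have h5 : a ^ 2 ≤ d ^ 2 := by nlinarith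
    have h6 : 2 * a * a ≤ b * a := by nlinarith
    exact le_of_mul_le_mul_right h6 h0

/-- inclusion matrix -/
def incl (r : Fin 3 → V) : Matrix V (Fin 3) ℝ := fun v i => if v = r i then 1 else 0

theorem net_spec {κ : Type*} [DecidableEq κ] {W0 W : Matrix V V ℝ} (hW : W.IsHermitian)
    (hW0 : W0.IsHermitian) (p : V → κ) (σ : V → ℝ) (hσ : ∀ v, σ v * σ v = 1)
    (hp : ∀ v w, p v ≠ p w → W0 v w = 0) (hs : ∀ v w, σ v * W0 v w * σ w = -W0 v w)
    (r : Fin 3 → V) (hr : ∀ i j, p (r i) = p (r j) → i = j)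
    (X : Matrix (Fin 3) (Fin 3) ℝ) (hX0 : ∀ i, X i i = 0) (hXs : ∀ i j, X i j = X j i)
    (hX : 0 ≤ X 0 1 * X 1 2 * X 0 2) (hWe : W = W0 + incl r * X * (incl r)ᵀ) :
    0 ≤ ∑ j, hW.eigenvalues j * |hW.eigenvalues j| := by
  apply sum_mul_abs_nonneg
  · have := hW.trace_eq_sum_eigenvalues
    simp only [RCLike.ofReal_real_eq_id, id] at this
    rw [← this, hWe]
    apply Finset.sum_eq_zero
    intro v _
    have h1 : W0 v v = 0 := by
      have := hs v v
      have h2 : σ v * W0 v v * σ v = W0 v v := by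
        rw [mul_comm (σ v), mul_assoc, hσ, mul_one]
      linarith
    simp only [diag_apply, Matrix.add_apply, h1, zero_add, Matrix.mul_apply, incl, transpose_apply]
    apply Finset.sum_eq_zero
    intro j _
    split_ifs with hj
    · rw [mul_one]
      apply Finset.sum_eq_zero
      intro i _
      split_ifs with hi
      · rw [hr i j (by rw [← hi, ← hj]), hX0]; simp
      · simp
    · simp
  intro t ht
  rw [← det_shift hW t]
  set K : Matrix V V ℂ := (t : ℂ) • (1 : Matrix V V ℂ) + Complex.I • cx W0 with hK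
  have hdet : K.det ≠ 0 := by
    rw [hK, det_shift hW0 t]
    refine Finset.prod_ne_zero_iff.2 fun j _ h => ?_
    have := congrArg Complex.re h
    simp at this
    exact ht.ne' this
  have hu : IsUnit K.det := isUnit_iff_ne_zero.2 hdet
  have hsym : ∀ v w, W0 w v = W0 v w := fun v w => by
    have := hW0.apply v w
    simpa using this
  set D : Matrix V V ℂ := diagonal fun v => (σ v : ℂ) with hD
  have hDD : D * D = 1 := by
    rw [hD, diagonal_mul_diagonal, ← diagonal_one]
    congr 1; funext v; exact_mod_cast hσ v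
  have hDK : D * K * D = Kᴴ := by
    ext v w
    rw [hD, mul_diagonal, diagonal_mul, conjTranspose_apply, hK]
    have h1 : (σ v : ℂ) * (W0 v w : ℂ) * (σ w : ℂ) = -(W0 v w : ℂ) := by exact_mod_cast hs v w
    by_cases h : v = w
    · subst h
      have h2 : (σ v : ℂ) * (σ v : ℂ) = 1 := by exact_mod_cast hσ v
      simp only [Matrix.add_apply, Matrix.smul_apply, one_apply_eq, smul_eq_mul, mul_one, map_apply, star_add,
        star_mul', RCLike.star_def, Complex.conj_ofReal, Complex.conj_I]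
      linear_combination (t : ℂ) * h2 + Complex.I * h1
    · simp only [Matrix.add_apply, Matrix.smul_apply, one_apply_ne h, one_apply_ne (Ne.symm h), smul_eq_mul,
        mul_zero, map_apply, zero_add, star_mul', RCLike.star_def, Complex.conj_ofReal,
        Complex.conj_I, hsym v w]
      linear_combination Complex.I * h1
  have hdim : K.det.im = 0 := by
    have h1 : (Kᴴ).det = K.det := by
      rw [← hDK, det_mul, det_mul, mul_comm, ← mul_assoc, ← det_mul, hDD, det_one, one_mul]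
    rw [det_conjTranspose] at h1
    exact Complex.conj_eq_iff_im.1 h1
  have hKi : K * K⁻¹ = 1 := mul_nonsing_inv _ hu
  have hiK : K⁻¹ * K = 1 := nonsing_inv_mul _ hu
  have hDi : D * K⁻¹ * D = (K⁻¹)ᴴ := by
    rw [conjTranspose_nonsing_inv, ← hDK]
    symm
    apply inv_eq_right_inv
    calc D * K * D * (D * K⁻¹ * D) = D * (K * ((D * D) * K⁻¹)) * D := by
          simp only [Matrix.mul_assoc]
      _ = 1 := by rw [hDD, Matrix.one_mul, hKi, Matrix.mul_one, hDD]
  have him : ∀ v, (K⁻¹ v v).im = 0 := by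
    intro v
    have h1 := congrFun (congrFun hDi v) v
    rw [hD, mul_diagonal, diagonal_mul, conjTranspose_apply] at h1
    have h2 : (σ v : ℂ) * (σ v : ℂ) = 1 := by exact_mod_cast hσ v
    have h3 : star (K⁻¹ v v) = K⁻¹ v v := by rw [← h1]; linear_combination (K⁻¹ v v) * h2
    exact Complex.conj_eq_iff_im.1 h3
  have hre : ∀ v, 0 ≤ (K⁻¹ v v).re := by
    intro v
    have h1 : K + Kᴴ = (2 * t : ℂ) • (1 : Matrix V V ℂ) := by
      ext a b
      rw [Matrix.add_apply, conjTranspose_apply, hK]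
      by_cases h : a = b
      · subst h
        simp
        ring
      · simp [one_apply_ne h, one_apply_ne (Ne.symm h), hsym a b]
    have h2 : (K⁻¹)ᴴ * (K + Kᴴ) * K⁻¹ = (K⁻¹)ᴴ + K⁻¹ := by
      rw [Matrix.mul_add, Matrix.add_mul, Matrix.mul_assoc, hKi, Matrix.mul_one,
        ← conjTranspose_mul, hKi, conjTranspose_one, Matrix.one_mul]
    rw [h1] at h2
    rw [Matrix.mul_smul, Matrix.mul_one, Matrix.smul_mul] at h2
    have h3 := congrArg Complex.re (congrFun (congrFun h2 v) v)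
    simp only [Matrix.smul_apply, Matrix.mul_apply,
      conjTranspose_apply, smul_eq_mul, Matrix.add_apply, RCLike.star_def, Complex.add_re,
      Complex.conj_re] at h3
    have h4 : ∑ j, (starRingEnd ℂ) (K⁻¹ j v) * K⁻¹ j v =
        ((∑ j, Complex.normSq (K⁻¹ j v) : ℝ) : ℂ) := by
      push_cast
      exact Finset.sum_congr rfl fun j _ => (Complex.normSq_eq_conj_mul_self).symm
    rw [h4] at h3
    have h5 : (2 * (t : ℂ) * ((∑ j, Complex.normSq (K⁻¹ j v) : ℝ) : ℂ)).re =
        2 * t * ∑ j, Complex.normSq (K⁻¹ j v) := by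
      rw [← Complex.ofReal_re (2 * t * ∑ j, Complex.normSq (K⁻¹ j v))]
      congr 1
      push_cast; rfl
    rw [h5] at h3
    have h6 : 0 ≤ ∑ j, Complex.normSq (K⁻¹ j v) :=
      Finset.sum_nonneg fun j _ => Complex.normSq_nonneg _
    nlinarith
  have hoff : ∀ v w, p v ≠ p w → K⁻¹ v w = 0 := by
    intro v w hvw
    set Q : Matrix V V ℂ := diagonal fun u => if p u = p w then 1 else 0 with hQ
    have h1 : Q * K = K * Q := by
      ext a b
      rw [hQ, mul_diagonal, diagonal_mul]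
      by_cases hab : p a = p b
      · simp [hab]
      · have : K a b = 0 := by
          have hne : a ≠ b := fun h => hab (by rw [h])
          simp [hK, one_apply_ne hne, hp a b hab]
        simp [this]
    have h2 : K⁻¹ * Q = Q * K⁻¹ := by
      calc K⁻¹ * Q = K⁻¹ * (Q * K) * K⁻¹ := by
            rw [Matrix.mul_assoc, Matrix.mul_assoc, hKi, Matrix.mul_one]
        _ = Q * K⁻¹ := by rw [h1, ← Matrix.mul_assoc, hiK, Matrix.one_mul]
    have h3 := congrFun (congrFun h2 v) w
    rw [hQ, mul_diagonal, diagonal_mul] at h3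
    simpa [hvw] using h3
  set g : Fin 3 → ℝ := fun i => (K⁻¹ (r i) (r i)).re with hg
  have hg0 : ∀ i, 0 ≤ g i := fun i => hre _
  have hG : cx (incl r)ᵀ * K⁻¹ * cx (incl r) = diagonal fun i => (g i : ℂ) := by
    ext i j
    have : (cx (incl r)ᵀ * K⁻¹ * cx (incl r)) i j = K⁻¹ (r i) (r j) := by
      simp [Matrix.mul_apply, incl, apply_ite]
    rw [this]
    by_cases h : i = j
    · subst h
      rw [diagonal_apply_eq]
      apply Complex.ext <;> simp [hg, him]
    · rw [diagonal_apply_ne _ h]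
      exact hoff _ _ fun h' => h (hr i j h')
  have hsplit : (t : ℂ) • (1 : Matrix V V ℂ) + Complex.I • cx W =
      K + cx (incl r) * (Complex.I • cx X * cx (incl r)ᵀ) := by
    rw [hK, hWe]
    have : cx (W0 + incl r * X * (incl r)ᵀ) = cx W0 + cx (incl r) * cx X * cx (incl r)ᵀ := by
      rw [← cx_mul, ← cx_mul]; ext a b; simp
    rw [this, smul_add, add_assoc]
    simp [Matrix.mul_assoc]
  rw [hsplit, det_add_mul _ _ hu]
  have hM : 1 + Complex.I • cx X * cx (incl r)ᵀ * K⁻¹ * cx (incl r) =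
      1 + Complex.I • cx X * diagonal fun i => (g i : ℂ) := by
    rw [← hG]; simp only [Matrix.mul_assoc]
  rw [hM]
  have hρ : (1 + Complex.I • cx X * diagonal fun i => (g i : ℂ)).det =
      ((1 + X 0 1 ^ 2 * (g 0 * g 1) + X 1 2 ^ 2 * (g 1 * g 2) + X 0 2 ^ 2 * (g 0 * g 2) : ℝ) : ℂ) +
        ((-(2 * (X 0 1 * X 1 2 * X 0 2) * (g 0 * g 1 * g 2)) : ℝ) : ℂ) * Complex.I := by
    rw [det_fin_three]
    simp only [Matrix.add_apply, mul_diagonal, Matrix.smul_apply, map_apply, smul_eq_mul, hX0, hXs 1 0, hXs 2 0,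
      hXs 2 1, one_apply_eq]
    simp only [one_apply, Fin.isValue, zero_ne_one, ↓reduceIte, one_ne_zero, Fin.reduceEq]
    push_cast
    linear_combination (-((X 0 1 : ℂ) ^ 2 * (g 0 * g 1) + (X 1 2 : ℂ) ^ 2 * (g 1 * g 2) +
      (X 0 2 : ℂ) ^ 2 * (g 0 * g 2)) +
      2 * ((X 0 1 : ℂ) * X 1 2 * X 0 2) * (g 0 * g 1 * g 2) * Complex.I) * Complex.I_mul_I
  rw [hρ]
  set a : ℝ := 1 + X 0 1 ^ 2 * (g 0 * g 1) + X 1 2 ^ 2 * (g 1 * g 2) + X 0 2 ^ 2 * (g 0 * g 2)
  set b : ℝ := -(2 * (X 0 1 * X 1 2 * X 0 2) * (g 0 * g 1 * g 2))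
  have ha : 0 < a := by
    have := hg0 0; have := hg0 1; have := hg0 2
    positivity
  have hb : b ≤ 0 := by
    have := hg0 0; have := hg0 1; have := hg0 2
    exact neg_nonpos.2 (by positivity)
  have hd : K.det.re ≠ 0 := fun h => hdet (Complex.ext h hdim)
  simp only [Complex.mul_re, Complex.add_re, Complex.ofReal_re, Complex.I_re, mul_zero,
    Complex.ofReal_im, Complex.I_im, mul_one, sub_self, add_zero, hdim, Complex.add_im,
    Complex.mul_im, zero_add, zero_mul, sub_zero]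
  refine ⟨mul_ne_zero hd ha.ne', ?_⟩
  have : K.det.re * a * (K.det.re * b) = K.det.re ^ 2 * a * b := by ring
  rw [this]
  exact mul_nonpos_of_nonneg_of_nonpos (by positivity) hb

end Pool.Agent.Lib.MP_943ac9_co
end
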