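import Mathlib
import Pool.Agent.Lib.MP_943ac9_co.Spec

-- part Pool.Agent.Lib.MP_943ac9_co.Basic
section

/-! Basic combinatorics of induced subgraphs on finsets. -/

namespace Pool.Agent.Lib.MP_943ac9_co

open Finset

variable {V : Type*} [DecidableEq V] (G : SimpleGraph V) [DecidableRel G.Adj]

/-- ordered adjacent pairs inside `S` -/
def E (S : Finset V) : Finset (V × V) := (S ×ˢ S).filter fun e => G.Adj e.1 e.2

/-- degree inside `S` -/
def deg (S : Finset V) (v : V) : ℕ := (S.filter fun w => G.Adj v w).card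

def Conn (S : Finset V) : Prop :=
  ∀ A ⊆ S, A.Nonempty → A ≠ S → ∃ a ∈ A, ∃ b ∈ S, b ∉ A ∧ G.Adj a b

def TriFree (S : Finset V) : Prop :=
  ∀ a ∈ S, ∀ b ∈ S, ∀ c ∈ S, G.Adj a b → G.Adj b c → ¬ G.Adj a c

structure Split (S S1 S2 : Finset V) (u : V) : Prop where
  union : S1 ∪ S2 = S
  inter : S1 ∩ S2 = {u}
  edge : ∀ a ∈ S1, ∀ b ∈ S2, G.Adj a b → a = u ∨ b = u

variable {G}

lemma mem_E {S : Finset V} {e : V × V} : e ∈ E G S ↔ e.1 ∈ S ∧ e.2 ∈ S ∧ G.Adj e.1 e.2 := by
  simp [E, and_assoc]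

lemma sum_E {M : Type*} [AddCommMonoid M] (S : Finset V) (f : V × V → M) :
    ∑ e ∈ E G S, f e = ∑ v ∈ S, ∑ w ∈ S, if G.Adj v w then f (v, w) else 0 := by
  rw [E, Finset.sum_filter, Finset.sum_product]

lemma card_E (S : Finset V) : (E G S).card = ∑ v ∈ S, deg G S v := by
  rw [Finset.card_eq_sum_ones, sum_E]
  refine Finset.sum_congr rfl fun v _ => ?_
  rw [deg, Finset.card_filter]

lemma sum_E_fst (S : Finset V) (f : V → ℝ) :
    ∑ e ∈ E G S, f e.1 = ∑ v ∈ S, (deg G S v : ℝ) * f v := by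
  rw [sum_E]
  refine Finset.sum_congr rfl fun v _ => ?_
  rw [← Finset.sum_filter]
  simp [deg]

lemma sum_E_swap {M : Type*} [AddCommMonoid M] (S : Finset V) (f : V × V → M) :
    ∑ e ∈ E G S, f e = ∑ e ∈ E G S, f e.swap := by
  rw [sum_E, sum_E, Finset.sum_comm]
  refine Finset.sum_congr rfl fun v _ => Finset.sum_congr rfl fun w _ => ?_
  simp [G.adj_comm]

lemma E_erase (S : Finset V) (v : V) :
    E G (S.erase v) = (E G S).filter fun e => e.1 ≠ v ∧ e.2 ≠ v := by
  ext e; simp only [mem_E, mem_erase, mem_filter]; tauto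

lemma card_E_erase {S : Finset V} {v : V} (hv : v ∈ S) :
    (E G S).card = (E G (S.erase v)).card + 2 * deg G S v := by
  have h1 : ((E G S).filter fun e => e.1 = v).card = deg G S v := by
    rw [deg]
    apply Finset.card_bij (fun e _ => e.2)
    · intro e he
      simp only [mem_filter, mem_E] at he ⊢
      exact ⟨he.1.2.1, he.2 ▸ he.1.2.2⟩
    · intro e he e' he' h
      simp only [mem_filter] at he he'
      exact Prod.ext (he.2.trans he'.2.symm) h
    · intro w hw
      simp only [mem_filter] at hw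
      exact ⟨(v, w), by simp [mem_E, hv, hw.1, hw.2], rfl⟩
  have h2 : ((E G S).filter fun e => e.2 = v).card = deg G S v := by
    rw [deg]
    apply Finset.card_bij (fun e _ => e.1)
    · intro e he
      simp only [mem_filter, mem_E] at he ⊢
      exact ⟨he.1.1, he.2 ▸ he.1.2.2.symm⟩
    · intro e he e' he' h
      simp only [mem_filter] at he he'
      exact Prod.ext h (he.2.trans he'.2.symm)
    · intro w hw
      simp only [mem_filter] at hw
      exact ⟨(w, v), by simp [mem_E, hv, hw.1, hw.2.symm], rfl⟩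
  have h3 := Finset.card_filter_add_card_filter_not (s := E G S) (fun e => e.1 ≠ v ∧ e.2 ≠ v)
  have h4 : ((E G S).filter fun e => ¬(e.1 ≠ v ∧ e.2 ≠ v)) =
      ((E G S).filter fun e => e.1 = v) ∪ ((E G S).filter fun e => e.2 = v) := by
    ext e; simp only [mem_filter, mem_union]; tauto
  have h5 : Disjoint ((E G S).filter fun e => e.1 = v) ((E G S).filter fun e => e.2 = v) := by
    rw [Finset.disjoint_left]
    intro e he he'
    simp only [mem_filter, mem_E] at he he'
    exact G.ne_of_adj he.1.2.2 (he.2.trans he'.2.symm)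
  rw [h4, Finset.card_union_of_disjoint h5, h1, h2, ← E_erase] at h3
  omega

lemma even_card_E (S : Finset V) : Even (E G S).card := by
  induction S using Finset.induction_on with
  | empty => simp [E]
  | insert v S hv ih =>
    rw [card_E_erase (mem_insert_self v S), erase_insert hv]
    exact ih.add (even_two_mul _)

lemma sum_erase_E (S : Finset V) (f : V × V → ℝ) :
    ∑ v ∈ S, ∑ e ∈ E G (S.erase v), f e = ((S.card : ℝ) - 2) * ∑ e ∈ E G S, f e := by
  simp only [E_erase, Finset.sum_filter]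
  rw [Finset.sum_comm, Finset.mul_sum]
  refine Finset.sum_congr rfl fun e he => ?_
  rw [mem_E] at he
  rw [← Finset.sum_filter, Finset.sum_const, nsmul_eq_mul]
  congr 1
  have : S.filter (fun v => e.1 ≠ v ∧ e.2 ≠ v) = (S.erase e.1).erase e.2 := by
    ext v; simp only [mem_filter, mem_erase]; tauto
  have h2 : e.2 ∈ S.erase e.1 := mem_erase.2 ⟨(G.ne_of_adj he.2.2).symm, he.2.1⟩
  have h3 := Finset.card_erase_add_one h2
  have h4 := Finset.card_erase_add_one he.1
  rw [this, ← h4, ← h3]; push_cast; ring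

lemma Split.symm {S S1 S2 : Finset V} {u : V} (h : Split G S S1 S2 u) : Split G S S2 S1 u :=
  ⟨by rw [union_comm]; exact h.union, by rw [inter_comm]; exact h.inter,
    fun a ha b hb hab => (h.edge b hb a ha hab.symm).symm⟩

lemma Split.mem_left {S S1 S2 : Finset V} {u : V} (h : Split G S S1 S2 u) : u ∈ S1 :=
  (mem_inter.1 (h.inter ▸ mem_singleton_self u)).1

lemma Split.mem_right {S S1 S2 : Finset V} {u : V} (h : Split G S S1 S2 u) : u ∈ S2 :=
  h.symm.mem_left

lemma Split.eq_of_mem {S S1 S2 : Finset V} {u : V} (h : Split G S S1 S2 u) {a : V}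
    (h1 : a ∈ S1) (h2 : a ∈ S2) : a = u :=
  mem_singleton.1 (h.inter ▸ mem_inter.2 ⟨h1, h2⟩)

lemma Split.left_subset {S S1 S2 : Finset V} {u : V} (h : Split G S S1 S2 u) : S1 ⊆ S :=
  h.union ▸ subset_union_left

lemma Split.mem_or {S S1 S2 : Finset V} {u : V} (h : Split G S S1 S2 u) {a : V} (ha : a ∈ S) :
    a ∈ S1 ∨ a ∈ S2 := mem_union.1 (h.union ▸ ha)

lemma Split.card {S S1 S2 : Finset V} {u : V} (h : Split G S S1 S2 u) :
    S1.card + S2.card = S.card + 1 := by
  rw [← Finset.card_union_add_card_inter, h.union, h.inter, card_singleton]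

lemma Split.E_eq {S S1 S2 : Finset V} {u : V} (h : Split G S S1 S2 u) :
    E G S = E G S1 ∪ E G S2 := by
  ext e
  simp only [mem_union, mem_E]
  constructor
  · rintro ⟨h1, h2, h3⟩
    rcases h.mem_or h1 with a1 | a1 <;> rcases h.mem_or h2 with a2 | a2
    · exact Or.inl ⟨a1, a2, h3⟩
    · rcases h.edge _ a1 _ a2 h3 with e1 | e1
      · exact Or.inr ⟨e1 ▸ h.mem_right, a2, h3⟩
      · exact Or.inl ⟨a1, e1 ▸ h.mem_left, h3⟩
    · rcases h.edge _ a2 _ a1 h3.symm with e1 | e1
      · exact Or.inr ⟨a1, e1 ▸ h.mem_right, h3⟩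
      · exact Or.inl ⟨e1 ▸ h.mem_left, a2, h3⟩
    · exact Or.inr ⟨a1, a2, h3⟩
  · rintro (⟨h1, h2, h3⟩ | ⟨h1, h2, h3⟩)
    · exact ⟨h.left_subset h1, h.left_subset h2, h3⟩
    · exact ⟨h.symm.left_subset h1, h.symm.left_subset h2, h3⟩

lemma Split.E_disj {S S1 S2 : Finset V} {u : V} (h : Split G S S1 S2 u) :
    Disjoint (E G S1) (E G S2) := by
  rw [Finset.disjoint_left]
  intro e h1 h2
  rw [mem_E] at h1 h2
  exact G.ne_of_adj h1.2.2 ((h.eq_of_mem h1.1 h2.1).trans (h.eq_of_mem h1.2.1 h2.2.1).symm)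

lemma Split.sum_E {M : Type*} [AddCommMonoid M] {S S1 S2 : Finset V} {u : V}
    (h : Split G S S1 S2 u) (f : V × V → M) :
    ∑ e ∈ E G S, f e = ∑ e ∈ E G S1, f e + ∑ e ∈ E G S2, f e := by
  rw [h.E_eq, Finset.sum_union h.E_disj]

lemma Split.card_E {S S1 S2 : Finset V} {u : V} (h : Split G S S1 S2 u) :
    (E G S).card = (E G S1).card + (E G S2).card := by
  rw [h.E_eq, Finset.card_union_of_disjoint h.E_disj]

lemma conn_side {S A : Finset V} {u : V} (hS : Conn G S) (hu : u ∈ S) (hA : A ⊆ S.erase u)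
    (hedge : ∀ a ∈ A, ∀ b ∈ S, G.Adj a b → b ∈ insert u A) : Conn G (insert u A) := by
  have key : ∀ C ⊆ A, C.Nonempty → ∃ a ∈ C, ∃ b ∈ insert u A, b ∉ C ∧ G.Adj a b := by
    intro C hC hne
    have h1 : C ⊆ S := hC.trans (hA.trans (erase_subset _ _))
    have h2 : C ≠ S := by
      intro h
      have : u ∈ S.erase u := hA (hC (h ▸ hu))
      simp at this
    obtain ⟨a, ha, b, hb, hb2, hab⟩ := hS C h1 hne h2
    exact ⟨a, ha, b, hedge a (hC ha) b hb hab, hb2, hab⟩
  intro C hC hne hne2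
  by_cases huC : u ∈ C
  · have h1 : insert u A \ C ⊆ A := by
      intro x hx
      rw [mem_sdiff, mem_insert] at hx
      rcases hx.1 with rfl | h
      · exact absurd huC hx.2
      · exact h
    have h2 : (insert u A \ C).Nonempty := by
      rw [sdiff_nonempty]
      intro h
      exact hne2 (Subset.antisymm hC h)
    obtain ⟨a, ha, b, hb, hb2, hab⟩ := key _ h1 h2
    rw [mem_sdiff] at ha hb2
    refine ⟨b, ?_, a, ha.1, ha.2, hab.symm⟩
    by_contra h
    exact hb2 ⟨hb, h⟩
  · apply key C _ hne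
    intro x hx
    rcases mem_insert.1 (hC hx) with rfl | h
    · exact absurd hx huC
    · exact h

lemma exists_split {S : Finset V} {u : V} (hS : Conn G S) (hu : u ∈ S)
    (hn : ¬ Conn G (S.erase u)) :
    ∃ S1 S2, Split G S S1 S2 u ∧ Conn G S1 ∧ Conn G S2 ∧ 2 ≤ S1.card ∧ 2 ≤ S2.card := by
  unfold Conn at hn
  push Not at hn
  obtain ⟨A, hA, hne, hne2, hno⟩ := hn
  have huA : u ∉ A := fun h => by simpa using hA h
  refine ⟨insert u A, insert u (S.erase u \ A), ⟨?_, ?_, ?_⟩, ?_, ?_, ?_, ?_⟩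
  · ext x
    simp only [mem_union, mem_insert, mem_sdiff, mem_erase]
    have := @hA x
    simp only [mem_erase] at this
    constructor
    · rintro ((rfl | h) | (rfl | h))
      exacts [hu, (this h).2, hu, h.1.2]
    · intro h
      by_cases h1 : x = u
      · exact Or.inl (Or.inl h1)
      · by_cases h2 : x ∈ A
        · exact Or.inl (Or.inr h2)
        · exact Or.inr (Or.inr ⟨⟨h1, h⟩, h2⟩)
  · ext x
    simp only [mem_inter, mem_insert, mem_sdiff, mem_erase, mem_singleton]
    tauto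
  · intro a ha b hb hab
    rcases mem_insert.1 ha with h1 | h1
    · exact Or.inl h1
    · rcases mem_insert.1 hb with h2 | h2
      · exact Or.inr h2
      · rw [mem_sdiff] at h2
        exact absurd hab (hno a h1 b h2.1 h2.2)
  · apply conn_side hS hu hA
    intro a ha b hb hab
    by_contra h
    rw [mem_insert, not_or] at h
    exact hno a ha b (mem_erase.2 ⟨h.1, hb⟩) h.2 hab
  · apply conn_side hS hu sdiff_subset
    intro a ha b hb hab
    by_contra h
    rw [mem_insert, not_or, mem_sdiff, mem_erase] at h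
    rw [mem_sdiff] at ha
    have : b ∈ A := by
      by_contra h'
      exact h.2 ⟨⟨h.1, hb⟩, h'⟩
    exact hno b this a ha.1 ha.2 hab.symm
  · rw [card_insert_of_notMem huA]
    have := hne.card_pos
    omega
  · rw [card_insert_of_notMem (by simp)]
    have : (S.erase u \ A).Nonempty := by
      rw [sdiff_nonempty]
      intro h
      exact hne2 (Subset.antisymm hA h)
    have := this.card_pos
    omega

lemma exists_adj {S : Finset V} (hS : Conn G S) (h2 : 2 ≤ S.card) {v : V} (hv : v ∈ S) :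
    ∃ w ∈ S, G.Adj v w := by
  obtain ⟨a, ha, b, hb, -, hab⟩ := hS {v} (by simpa) (by simp) (by
    rintro rfl; simp at h2)
  rw [mem_singleton] at ha
  exact ⟨b, hb, ha ▸ hab⟩

lemma two_le_deg {S : Finset V} (hS : Conn G S) (h3 : 3 ≤ S.card)
    (hc : ∀ u ∈ S, Conn G (S.erase u)) {v : V} (hv : v ∈ S) : 2 ≤ deg G S v := by
  obtain ⟨w, hw, hvw⟩ := exists_adj hS (by omega) hv
  obtain ⟨w', hw', hvw'⟩ := exists_adj (hc w hw) (by rw [card_erase_of_mem hw]; omega)
    (mem_erase.2 ⟨G.ne_of_adj hvw, hv⟩)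
  rw [mem_erase] at hw'
  rw [deg, ← card_pair hw'.1]
  apply card_le_card
  intro x hx
  simp only [mem_insert, mem_singleton] at hx
  rcases hx with rfl | rfl
  · exact mem_filter.2 ⟨hw'.2, hvw'⟩
  · exact mem_filter.2 ⟨hw, hvw⟩

lemma deg_lt {S : Finset V} {v : V} (hv : v ∈ S) : deg G S v + 1 ≤ S.card := by
  rw [← Finset.card_erase_add_one hv, deg]
  gcongr
  intro x hx
  rw [mem_filter] at hx
  exact mem_erase.2 ⟨(G.ne_of_adj hx.2).symm, hx.1⟩

lemma card_E_le (S : Finset V) : (E G S).card + S.card ≤ S.card * S.card := by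
  rw [card_E]
  calc ∑ v ∈ S, deg G S v + S.card = ∑ v ∈ S, (deg G S v + 1) := by
        rw [Finset.sum_add_distrib]; simp
    _ ≤ ∑ v ∈ S, S.card := Finset.sum_le_sum fun v hv => deg_lt hv
    _ = _ := by simp

lemma TriFree.mono {S S' : Finset V} (h : TriFree G S) (hs : S' ⊆ S) : TriFree G S' :=
  fun a ha b hb c hc => h a (hs ha) b (hs hb) c (hs hc)

lemma mantel {S : Finset V} (h : TriFree G S) : 2 * (E G S).card ≤ S.card * S.card := by
  have h1 : ∀ e ∈ E G S, (deg G S e.1 : ℝ) + deg G S e.2 ≤ S.card := by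
    intro e he
    rw [mem_E] at he
    have : deg G S e.1 + deg G S e.2 ≤ S.card := by
      rw [deg, deg, ← Finset.card_union_of_disjoint]
      · exact card_le_card (union_subset (filter_subset _ _) (filter_subset _ _))
      · rw [Finset.disjoint_left]
        intro x h1 h2
        rw [mem_filter] at h1 h2
        exact h _ he.1 _ he.2.1 _ h1.1 he.2.2 h2.2 h1.2
    exact_mod_cast this
  have h2 := Finset.sum_le_sum h1
  rw [Finset.sum_add_distrib, sum_E_swap S (fun e => (deg G S e.2 : ℝ))] at h2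
  simp only [Prod.snd_swap] at h2
  rw [sum_E_fst S (fun v => (deg G S v : ℝ)), Finset.sum_const, nsmul_eq_mul] at h2
  have h3 : ((E G S).card : ℝ) = ∑ v ∈ S, (deg G S v : ℝ) := by rw [card_E]; push_cast; rfl
  have h4 := Finset.sum_mul_sq_le_sq_mul_sq S (fun _ => (1 : ℝ)) (fun v => (deg G S v : ℝ))
  simp only [one_mul, one_pow, Finset.sum_const, nsmul_eq_mul, mul_one] at h4
  rw [← h3] at h4
  simp only [sq] at h4
  have h5 : (0 : ℝ) ≤ S.card := by positivity
  have h6 : 2 * ((E G S).card : ℝ) ≤ S.card * S.card := by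
    rcases (show (0 : ℝ) ≤ (E G S).card by positivity).eq_or_lt with h0 | h0
    · rw [← h0, mul_zero]; positivity
    · apply le_of_mul_le_mul_right _ h0
      nlinarith
  exact_mod_cast h6

/-- delete the edge `ab` -/
def del (G : SimpleGraph V) (a b : V) : SimpleGraph V where
  Adj v w := G.Adj v w ∧ ¬ (v = a ∧ w = b) ∧ ¬ (v = b ∧ w = a)
  symm := ⟨fun v w h => ⟨h.1.symm, fun h' => h.2.2 ⟨h'.2, h'.1⟩, fun h' => h.2.1 ⟨h'.2, h'.1⟩⟩⟩
  loopless := ⟨fun v h => G.loopless.irrefl v h.1⟩

instance (a b : V) : DecidableRel (del G a b).Adj := fun v w =>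
  inferInstanceAs (Decidable (G.Adj v w ∧ ¬ (v = a ∧ w = b) ∧ ¬ (v = b ∧ w = a)))

lemma del_adj {a b v w : V} :
    (del G a b).Adj v w ↔ G.Adj v w ∧ ¬ (v = a ∧ w = b) ∧ ¬ (v = b ∧ w = a) := Iff.rfl

lemma sum_E_del {M : Type*} [AddCommMonoid M] {S : Finset V} {a b : V} (ha : a ∈ S) (hb : b ∈ S)
    (hab : G.Adj a b) (f : V × V → M) :
    ∑ e ∈ E G S, f e = f (a, b) + (f (b, a) + ∑ e ∈ E (del G a b) S, f e) := by
  have : E G S = insert (a, b) (insert (b, a) (E (del G a b) S)) := by
    ext ⟨v, w⟩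
    simp only [mem_E, mem_insert, Prod.mk.injEq, del_adj]
    constructor
    · tauto
    · rintro (⟨rfl, rfl⟩ | ⟨rfl, rfl⟩ | h)
      exacts [⟨ha, hb, hab⟩, ⟨hb, ha, hab.symm⟩, ⟨h.1, h.2.1, h.2.2.1⟩]
  rw [this, Finset.sum_insert, Finset.sum_insert]
  · simp [mem_E, del_adj]
  · simp [mem_E, del_adj, G.ne_of_adj hab]

lemma card_E_del {S : Finset V} {a b : V} (ha : a ∈ S) (hb : b ∈ S) (hab : G.Adj a b) :
    (E G S).card = (E (del G a b) S).card + 2 := by
  rw [Finset.card_eq_sum_ones, sum_E_del ha hb hab, ← Finset.card_eq_sum_ones]; ring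

lemma conn_del {S : Finset V} (hS : Conn G S) {a b c : V} (hc : c ∈ S)
    (hac : G.Adj a c) (hbc : G.Adj b c) : Conn (del G a b) S := by
  intro A hA hne hne2
  obtain ⟨x, hx, y, hy, hy2, hxy⟩ := hS A hA hne hne2
  have h1 := G.ne_of_adj hac
  have h2 := G.ne_of_adj hbc
  by_cases h : (del G a b).Adj x y
  · exact ⟨x, hx, y, hy, hy2, h⟩
  have hxc : G.Adj x c ∧ G.Adj y c := by
    rw [del_adj] at h
    by_cases e1 : x = a ∧ y = b
    · rw [e1.1, e1.2]; exact ⟨hac, hbc⟩
    · have e2 : x = b ∧ y = a := by tauto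
      rw [e2.1, e2.2]; exact ⟨hbc, hac⟩
  by_cases hcA : c ∈ A
  · exact ⟨c, hcA, y, hy, hy2, hxc.2.symm, fun h => h1 h.1.symm, fun h => h2 h.1.symm⟩
  · exact ⟨x, hx, c, hc, hcA, hxc.1, fun h => h2 h.2.symm, fun h => h1 h.2.symm⟩

end Pool.Agent.Lib.MP_943ac9_co
end

-- part Pool.Agent.Lib.MP_943ac9_co.Cert
section

/-! Dual certificates. -/

namespace Pool.Agent.Lib.MP_943ac9_co

open Finset

variable {V : Type*} [DecidableEq V] {G : SimpleGraph V} [DecidableRel G.Adj]

def QF (S : Finset V) (Z : V → V → ℝ) (y : V → ℝ) : ℝ := ∑ a ∈ S, ∑ b ∈ S, Z a b * (y a * y b)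

structure IsCorr (S : Finset V) (Z : V → V → ℝ) : Prop where
  symm : ∀ a b, Z a b = Z b a
  psd : ∀ y, 0 ≤ QF S Z y
  diag : ∀ a ∈ S, Z a a = 1

def Cert (G : SimpleGraph V) [DecidableRel G.Adj] (S : Finset V) (c : ℝ) : Prop :=
  ∃ Z, IsCorr S Z ∧ (∀ e ∈ E G S, Z e.1 e.2 < 1) ∧ ∑ e ∈ E G S, 1 / (1 - Z e.1 e.2) ≤ c

/-- `q = 2m - n + 1` -/
noncomputable def qq (G : SimpleGraph V) [DecidableRel G.Adj] (S : Finset V) : ℝ :=
  ((E G S).card : ℝ) - S.card + 1

lemma Cert.mono {S : Finset V} {c c' : ℝ} (h : Cert G S c) (hc : c ≤ c') : Cert G S c' := by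
  obtain ⟨Z, h1, h2, h3⟩ := h
  exact ⟨Z, h1, h2, h3.trans hc⟩

lemma IsCorr.schur {S : Finset V} {Z : V → V → ℝ} (h : IsCorr S Z) {u : V} (hu : u ∈ S)
    (y : V → ℝ) : (∑ a ∈ S, Z u a * y a) ^ 2 ≤ QF S Z y := by
  set s := ∑ a ∈ S, Z u a * y a with hs
  have h1 := h.psd fun a => y a - s * if a = u then 1 else 0
  have h2 : QF S Z (fun a => y a - s * if a = u then 1 else 0) = QF S Z y - s ^ 2 := by
    have e : ∀ a b, Z a b * ((y a - s * if a = u then 1 else 0) *
        (y b - s * if b = u then 1 else 0)) = Z a b * (y a * y b) -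
          (if a = u then s * (Z u b * y b) else 0) - (if b = u then s * (Z u a * y a) else 0) +
          (if a = u then if b = u then s ^ 2 else 0 else 0) := by
      intro a b
      by_cases ha : a = u <;> by_cases hb : b = u
      · subst ha; subst hb; simp [h.diag _ hu]; ring
      · subst ha; simp [hb]; ring
      · subst hb; simp [ha, h.symm a b]; ring
      · simp [ha, hb]
    simp only [QF, e, Finset.sum_add_distrib, Finset.sum_sub_distrib]
    rw [Finset.sum_comm (f := fun a b => if a = u then s * (Z u b * y b) else 0)]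
    simp [hu, ← Finset.mul_sum, ← hs]
    ring
  linarith

lemma IsCorr.abs_le {S : Finset V} {Z : V → V → ℝ} (h : IsCorr S Z) {u w : V} (hu : u ∈ S)
    (hw : w ∈ S) : |Z u w| ≤ 1 := by
  have := h.schur hu fun a => if a = w then 1 else 0
  simp [QF, hw, h.diag w hw] at this
  exact (sq_le_one_iff_abs_le_one _).1 (by simpa using this)

lemma Cert.lower {S : Finset V} {c : ℝ} (h : Cert G S c) : ((E G S).card : ℝ) / 2 ≤ c := by
  obtain ⟨Z, h1, h2, h3⟩ := h
  refine le_trans ?_ h3
  have : ∑ e ∈ E G S, (1 / 2 : ℝ) ≤ ∑ e ∈ E G S, 1 / (1 - Z e.1 e.2) := by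
    refine Finset.sum_le_sum fun e he => ?_
    have h4 := h2 e he
    rw [mem_E] at he
    have h5 := abs_le.1 (h1.abs_le he.1 he.2.1)
    exact one_div_le_one_div_of_le (by linarith) (by linarith)
  simpa [div_eq_mul_inv] using this

lemma sum_ite_subset {S S1 : Finset V} (h : S1 ⊆ S) (f : V → V → ℝ) :
    ∑ a ∈ S, ∑ b ∈ S, (if a ∈ S1 ∧ b ∈ S1 then f a b else 0) = ∑ a ∈ S1, ∑ b ∈ S1, f a b := by
  have : ∀ a, ∑ b ∈ S, (if a ∈ S1 ∧ b ∈ S1 then f a b else 0) =
      if a ∈ S1 then ∑ b ∈ S1, f a b else 0 := by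
    intro a
    by_cases ha : a ∈ S1
    · simp only [ha, true_and, if_true]
      rw [← Finset.sum_filter, filter_mem_eq_inter, inter_eq_right.2 h]
    · simp [ha]
  simp only [this]
  rw [← Finset.sum_filter, filter_mem_eq_inter, inter_eq_right.2 h]

lemma IsCorr.resid {S : Finset V} {Z : V → V → ℝ} (h : IsCorr S Z) {u : V} (hu : u ∈ S)
    (y : V → ℝ) : 0 ≤ QF S (fun a b => Z a b - Z u a * Z u b) y := by
  have h1 := h.schur hu y
  have : QF S (fun a b => Z a b - Z u a * Z u b) y = QF S Z y - (∑ a ∈ S, Z u a * y a) ^ 2 := by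
    simp only [QF, sq, Finset.sum_mul_sum, ← Finset.sum_sub_distrib]
    exact Finset.sum_congr rfl fun a _ => Finset.sum_congr rfl fun b _ => by ring
  linarith

lemma Cert.glue {S S1 S2 : Finset V} {u : V} (hs : Split G S S1 S2 u) {c1 c2 : ℝ}
    (h1 : Cert G S1 c1) (h2 : Cert G S2 c2) : Cert G S (c1 + c2) := by
  obtain ⟨Z1, a1, b1, d1⟩ := h1
  obtain ⟨Z2, a2, b2, d2⟩ := h2
  have hu1 := hs.mem_left
  have hu2 := hs.mem_right
  set t : V → ℝ := fun a => if a ∈ S1 then Z1 u a else Z2 u a with ht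
  set Z : V → V → ℝ := fun a b => t a * t b +
    (if a ∈ S1 ∧ b ∈ S1 then Z1 a b - Z1 u a * Z1 u b else 0) +
    (if a ∈ S2 ∧ b ∈ S2 then Z2 a b - Z2 u a * Z2 u b else 0) with hZ
  have e1 : ∀ a ∈ S1, ∀ b ∈ S1, Z a b = Z1 a b := by
    intro a ha b hb
    simp only [hZ, ht, ha, hb, if_true, and_self]
    split_ifs with h
    · rw [hs.eq_of_mem ha h.1, hs.eq_of_mem hb h.2, a2.diag u hu2]; ring
    · ring
  have t2 : ∀ a ∈ S2, t a = Z2 u a := by
    intro a ha
    simp only [ht]
    split_ifs with h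
    · rw [hs.eq_of_mem h ha, a1.diag u hu1, a2.diag u hu2]
    · rfl
  have e2 : ∀ a ∈ S2, ∀ b ∈ S2, Z a b = Z2 a b := by
    intro a ha b hb
    simp only [hZ, t2 a ha, t2 b hb, ha, hb, if_true, and_self]
    split_ifs with h
    · rw [hs.eq_of_mem h.1 ha, hs.eq_of_mem h.2 hb, a1.diag u hu1]; ring
    · ring
  refine ⟨Z, ⟨?_, ?_, ?_⟩, ?_, ?_⟩
  · intro a b
    simp only [hZ, and_comm (a := a ∈ S1), and_comm (a := a ∈ S2), a1.symm a b, a2.symm a b,
      mul_comm (t a), mul_comm (Z1 u a), mul_comm (Z2 u a)]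
  · intro y
    have : QF S Z y = (∑ a ∈ S, t a * y a) ^ 2 + QF S1 (fun a b => Z1 a b - Z1 u a * Z1 u b) y +
        QF S2 (fun a b => Z2 a b - Z2 u a * Z2 u b) y := by
      simp only [QF]
      rw [← sum_ite_subset hs.left_subset, ← sum_ite_subset hs.symm.left_subset, sq,
        Finset.sum_mul_sum]
      simp only [← Finset.sum_add_distrib]
      refine Finset.sum_congr rfl fun a _ => Finset.sum_congr rfl fun b _ => ?_
      simp only [hZ]
      split_ifs <;> ring
    rw [this]
    have := a1.resid hu1 y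
    have := a2.resid hu2 y
    positivity
  · intro a ha
    rcases hs.mem_or ha with h | h
    · rw [e1 a h a h, a1.diag a h]
    · rw [e2 a h a h, a2.diag a h]
  · intro e he
    rw [hs.E_eq, mem_union] at he
    rcases he with he | he
    · have := mem_E.1 he
      rw [e1 _ this.1 _ this.2.1]; exact b1 e he
    · have := mem_E.1 he
      rw [e2 _ this.1 _ this.2.1]; exact b2 e he
  · rw [hs.sum_E]
    apply add_le_add
    · refine le_trans (le_of_eq (Finset.sum_congr rfl fun e he => ?_)) d1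
      have := mem_E.1 he
      rw [e1 _ this.1 _ this.2.1]
    · refine le_trans (le_of_eq (Finset.sum_congr rfl fun e he => ?_)) d2
      have := mem_E.1 he
      rw [e2 _ this.1 _ this.2.1]

lemma cs_avg {ι : Type*} (s : Finset ι) (y : ι → ℝ) (hy : ∀ i ∈ s, 0 < y i) (a b : ℝ) :
    (s.card * a + b) ^ 2 ≤ (∑ i ∈ s, y i + 1) * (a ^ 2 * ∑ i ∈ s, 1 / y i + b ^ 2) := by
  have h1 : (∑ i ∈ s, (1 : ℝ)) ^ 2 ≤ (∑ i ∈ s, y i) * ∑ i ∈ s, 1 / y i :=
    Finset.sum_sq_le_sum_mul_sum_of_sq_le_mul s (fun i hi => (hy i hi).le)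
      (fun i hi => (one_div_pos.2 (hy i hi)).le)
      (fun i hi => by have := hy i hi; field_simp; rfl)
  simp only [Finset.sum_const, nsmul_eq_mul, mul_one] at h1
  set Y := ∑ i ∈ s, y i
  set X := ∑ i ∈ s, 1 / y i
  have hY : 0 ≤ Y := Finset.sum_nonneg fun i hi => (hy i hi).le
  have hX : 0 ≤ X := Finset.sum_nonneg fun i hi => (one_div_pos.2 (hy i hi)).le
  have h2 : 2 * (s.card * a * b) ≤ Y * b ^ 2 + a ^ 2 * X := by
    have h3 : (s.card * a * b) ^ 2 ≤ (Y * b ^ 2) * (a ^ 2 * X) := by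
      have : (s.card * a * b) ^ 2 = (s.card : ℝ) ^ 2 * (a ^ 2 * b ^ 2) := by ring
      rw [this]
      calc _ ≤ (Y * X) * (a ^ 2 * b ^ 2) := by gcongr
        _ = _ := by ring
    exact two_mul_le_add_of_sq_le_mul (by positivity) (by positivity) h3
  have h4 : (s.card : ℝ) ^ 2 * a ^ 2 ≤ Y * X * a ^ 2 := by gcongr
  nlinarith

lemma Cert.average {S : Finset V} (h3 : 3 ≤ S.card) (c : V → ℝ)
    (h : ∀ v ∈ S, Cert G (S.erase v) (c v)) {P : ℝ} (hP : 0 < P) (hE : 0 < (E G S).card)
    (hsum : ∑ v ∈ S, c v ≤ ((S.card : ℝ) - 2) * P) :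
    Cert G S (((S.card : ℝ) - 1) / (((S.card : ℝ) - 2) / P + 1 / (E G S).card)) := by
  choose! Z hZ hlt hcost using h
  have hn : (3 : ℝ) ≤ S.card := by exact_mod_cast h3
  have hE' : (0 : ℝ) < (E G S).card := by exact_mod_cast hE
  set n : ℝ := (S.card : ℝ) with hndef
  set m : ℝ := ((E G S).card : ℝ) with hmdef
  set Y : V → V → ℝ := fun a b =>
    (∑ v ∈ S, if a ∈ S.erase v ∧ b ∈ S.erase v then Z v a b else 0) / (n - 1) with hY
  have hedge : ∀ e ∈ E G S, 1 - Y e.1 e.2 =
      (∑ v ∈ S.filter (fun v => e.1 ≠ v ∧ e.2 ≠ v), (1 - Z v e.1 e.2) + 1) / (n - 1) ∧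
      ((S.filter (fun v => e.1 ≠ v ∧ e.2 ≠ v)).card : ℝ) = n - 2 := by
    intro e he
    rw [mem_E] at he
    have hc : ((S.filter (fun v => e.1 ≠ v ∧ e.2 ≠ v)).card : ℝ) = n - 2 := by
      have : S.filter (fun v => e.1 ≠ v ∧ e.2 ≠ v) = (S.erase e.1).erase e.2 := by
        ext v; simp only [mem_filter, mem_erase]; tauto
      have h2 : e.2 ∈ S.erase e.1 := mem_erase.2 ⟨(G.ne_of_adj he.2.2).symm, he.2.1⟩
      have h3 := Finset.card_erase_add_one h2
      have h4 := Finset.card_erase_add_one he.1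
      rw [this, hndef, ← h4, ← h3]; push_cast; ring
    refine ⟨?_, hc⟩
    simp only [hY, mem_erase, he.1, he.2.1, and_true]
    rw [← Finset.sum_filter, Finset.sum_sub_distrib, Finset.sum_const, nsmul_eq_mul, hc]
    have : n - 1 ≠ 0 := by linarith
    field_simp
    ring
  have hpos : ∀ e ∈ E G S, ∀ v ∈ S.filter (fun v => e.1 ≠ v ∧ e.2 ≠ v), 0 < 1 - Z v e.1 e.2 := by
    intro e he v hv
    rw [mem_filter] at hv
    have := hlt v hv.1 e (by rw [E_erase, mem_filter]; exact ⟨he, hv.2⟩)
    linarith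
  refine ⟨Y, ⟨?_, ?_, ?_⟩, ?_, ?_⟩
  · intro a b
    simp only [hY]
    congr 1
    refine Finset.sum_congr rfl fun v hv => ?_
    rw [(hZ v hv).symm a b]
    simp only [and_comm]
  · intro y
    have : QF S Y y = (∑ v ∈ S, QF (S.erase v) (Z v) y) / (n - 1) := by
      simp only [QF, hY]
      have : ∀ v ∈ S, ∑ a ∈ S.erase v, ∑ b ∈ S.erase v, Z v a b * (y a * y b) =
          ∑ a ∈ S, ∑ b ∈ S, if a ∈ S.erase v ∧ b ∈ S.erase v then Z v a b * (y a * y b) else 0 :=
        fun v _ => (sum_ite_subset (erase_subset _ _) _).symm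
      rw [Finset.sum_congr rfl this]
      symm
      rw [Finset.sum_comm, Finset.sum_div]
      refine Finset.sum_congr rfl fun a _ => ?_
      rw [Finset.sum_comm, Finset.sum_div]
      refine Finset.sum_congr rfl fun b _ => ?_
      rw [div_mul_eq_mul_div, Finset.sum_mul]
      congr 1
      refine Finset.sum_congr rfl fun v _ => ?_
      split_ifs
      · rfl
      · simp
    rw [this]
    exact div_nonneg (Finset.sum_nonneg fun v hv => (hZ v hv).psd y) (by linarith)
  · intro a ha
    simp only [hY, and_self]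
    have : ∑ v ∈ S, (if a ∈ S.erase v then Z v a a else 0) = ∑ v ∈ S.erase a, (1 : ℝ) := by
      rw [← Finset.sum_filter]
      apply Finset.sum_congr
      · ext v; simp only [mem_filter, mem_erase]; tauto
      · intro v hv
        rw [mem_erase] at hv
        exact (hZ v hv.2).diag a (mem_erase.2 ⟨hv.1.symm, ha⟩)
    rw [this, Finset.sum_const, nsmul_eq_mul, mul_one]
    have h4 := Finset.card_erase_add_one ha
    rw [div_eq_one_iff_eq (by linarith), hndef, ← h4]; push_cast; ring
  · intro e he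
    have h1 := (hedge e he).1
    have h2 : 0 ≤ ∑ v ∈ S.filter (fun v => e.1 ≠ v ∧ e.2 ≠ v), (1 - Z v e.1 e.2) :=
      Finset.sum_nonneg fun v hv => (hpos e he v hv).le
    have : 0 < 1 - Y e.1 e.2 := by
      rw [h1]; exact div_pos (by linarith) (by linarith)
    linarith
  · set D := (n - 2) / P + 1 / m with hD
    have hD0 : 0 < D := by
      have : 0 < n - 2 := by linarith
      positivity
    have h1 : ∀ e ∈ E G S, 1 / (1 - Y e.1 e.2) ≤ (n - 1) / D ^ 2 *
        ((1 / P) ^ 2 * ∑ v ∈ S.filter (fun v => e.1 ≠ v ∧ e.2 ≠ v), 1 / (1 - Z v e.1 e.2) +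
          (1 / m) ^ 2) := by
      intro e he
      have h2 := cs_avg _ _ (hpos e he) (1 / P) (1 / m)
      rw [(hedge e he).2, mul_one_div, ← hD] at h2
      rw [(hedge e he).1]
      have h5 : 0 ≤ ∑ v ∈ S.filter (fun v => e.1 ≠ v ∧ e.2 ≠ v), (1 - Z v e.1 e.2) :=
        Finset.sum_nonneg fun v hv => (hpos e he v hv).le
      rw [one_div_div, div_mul_eq_mul_div, div_le_div_iff₀ (by linarith) (by positivity),
        mul_assoc]
      apply mul_le_mul_of_nonneg_left _ (by linarith)
      linarith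
    refine (Finset.sum_le_sum h1).trans ?_
    rw [← Finset.mul_sum, Finset.sum_add_distrib, ← Finset.mul_sum, Finset.sum_const,
      nsmul_eq_mul, ← hmdef]
    have h6 : ∑ e ∈ E G S, ∑ v ∈ S.filter (fun v => e.1 ≠ v ∧ e.2 ≠ v), 1 / (1 - Z v e.1 e.2) ≤
        (n - 2) * P := by
      refine le_trans (le_of_eq ?_) ((Finset.sum_le_sum hcost).trans hsum)
      simp only [E_erase, Finset.sum_filter]
      rw [Finset.sum_comm]
    calc _ ≤ (n - 1) / D ^ 2 * ((1 / P) ^ 2 * ((n - 2) * P) + m * (1 / m) ^ 2) := by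
          apply mul_le_mul_of_nonneg_left _ (div_nonneg (by linarith) (by positivity))
          gcongr
      _ = (n - 1) / D ^ 2 * D := by
          congr 1
          rw [hD]; field_simp
      _ = (n - 1) / D := by field_simp

lemma sum_qq_erase (S : Finset V) :
    ∑ v ∈ S, qq G (S.erase v) = ((S.card : ℝ) - 2) * (qq G S - 1) := by
  have h1 := sum_erase_E (G := G) S (fun _ => 1)
  simp only [Finset.sum_const, nsmul_eq_mul, mul_one] at h1
  have h2 : ∀ v ∈ S, qq G (S.erase v) = (E G (S.erase v)).card - ((S.card : ℝ) - 2) := by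
    intro v hv
    have h4 := Finset.card_erase_add_one hv
    rw [qq, ← h4]; push_cast; ring
  rw [Finset.sum_congr rfl h2, Finset.sum_sub_distrib, h1, Finset.sum_const, nsmul_eq_mul, qq]
  ring

lemma Split.qq_eq {S S1 S2 : Finset V} {u : V} (hs : Split G S S1 S2 u) :
    qq G S = qq G S1 + qq G S2 := by
  have h1 : ((S1.card : ℝ) + S2.card) = S.card + 1 := by exact_mod_cast hs.card
  simp only [qq, hs.card_E]; push_cast; linarith

lemma cert_small {S : Finset V} (hS : Conn G S) (hne : S.Nonempty) (h2 : S.card ≤ 2) :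
    Cert G S (qq G S) := by
  have h1 := hne.card_pos
  have hle := card_E_le (G := G) S
  obtain h | h : S.card = 1 ∨ S.card = 2 := by omega
  · have hE : E G S = ∅ := by
      rw [← Finset.card_eq_zero]; rw [h] at hle; omega
    refine ⟨fun _ _ => 1, ⟨fun _ _ => rfl, fun y => ?_, fun _ _ => rfl⟩, by simp [hE], ?_⟩
    · simp only [QF, one_mul, ← Finset.sum_mul_sum]
      exact mul_self_nonneg _
    · simp [hE, qq, h]
  · obtain ⟨a, b, hab, rfl⟩ := Finset.card_eq_two.1 h
    obtain ⟨w, hw, haw⟩ := exists_adj hS h.ge (mem_insert_self a {b})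
    have hE : 2 ≤ (E G {a, b}).card := by
      have := card_E_del (mem_insert_self a {b}) hw haw
      omega
    have hE2 : (E G {a, b}).card = 2 := by rw [h] at hle; omega
    refine ⟨fun x y => if x = y then 1 else -1, ⟨fun x y => by simp [eq_comm], fun y => ?_,
      fun _ _ => by simp⟩, ?_, ?_⟩
    · simp only [QF, Finset.sum_pair hab, hab, hab.symm, if_true, if_false]
      nlinarith [sq_nonneg (y a - y b)]
    · intro e he
      simp [G.ne_of_adj (mem_E.1 he).2.2]
    · have : ∀ e ∈ E G {a, b}, 1 / (1 - (if e.1 = e.2 then (1 : ℝ) else -1)) = 1 / 2 := by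
        intro e he
        simp [G.ne_of_adj (mem_E.1 he).2.2]; norm_num
      rw [Finset.sum_congr rfl this, Finset.sum_const, qq, hE2, h]
      norm_num

lemma Cert.card_le {S : Finset V} (h : Cert G S (qq G S)) : 2 * S.card ≤ (E G S).card + 2 := by
  have := h.lower
  rw [qq] at this
  have h2 : 2 * (S.card : ℝ) ≤ (E G S).card + 2 := by linarith
  exact_mod_cast h2

lemma avg_le {n P m x : ℝ} (hn : 3 ≤ n) (hP : 0 < P) (hm : 0 < m) (hx : 0 < x)
    (h : (n - 1) * P * m ≤ x * ((n - 2) * m + P)) : (n - 1) / ((n - 2) / P + 1 / m) ≤ x := by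
  have : 0 < n - 2 := by linarith
  rw [div_le_iff₀ (by positivity), div_add_div _ _ hP.ne' hm.ne', ← mul_div_assoc,
    le_div_iff₀ (by positivity)]
  nlinarith

theorem cert_conn {S : Finset V} (hS : Conn G S) (hne : S.Nonempty) : Cert G S (qq G S) := by
  induction' hn : S.card using Nat.strong_induction_on with n ih generalizing S
  by_cases h2 : S.card ≤ 2
  · exact cert_small hS hne h2
  by_cases hc : ∀ u ∈ S, Conn G (S.erase u)
  · have h1 : ∀ v ∈ S, Cert G (S.erase v) (qq G (S.erase v)) := by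
      intro v hv
      have h4 := Finset.card_erase_add_one hv
      exact ih _ (by omega) (hc v hv) (by rw [← card_pos]; omega) rfl
    have hdeg : 2 * S.card ≤ (E G S).card := by
      rw [card_E, mul_comm, ← smul_eq_mul, ← Finset.sum_const]
      exact Finset.sum_le_sum fun v hv => two_le_deg hS (by omega) hc hv
    have hdeg' : 2 * (S.card : ℝ) ≤ (E G S).card := by exact_mod_cast hdeg
    have h3 : (3 : ℝ) ≤ S.card := by exact_mod_cast (show 3 ≤ S.card by omega)
    have hle : ((E G S).card : ℝ) + S.card ≤ S.card * S.card := by exact_mod_cast card_E_le S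
    have hP : 0 < qq G S - 1 := by rw [qq]; linarith
    refine (Cert.average (by omega) _ h1 hP (by omega) (sum_qq_erase S).le).mono ?_
    apply avg_le h3 hP (by linarith) (by linarith)
    rw [qq]
    nlinarith
  · push Not at hc
    obtain ⟨u, hu, hc⟩ := hc
    obtain ⟨S1, S2, hs, c1, c2, n1, n2⟩ := exists_split hS hu hc
    have := hs.card
    rw [hs.qq_eq]
    exact Cert.glue hs (ih _ (by omega) c1 (by rw [← card_pos]; omega) rfl)
      (ih _ (by omega) c2 (by rw [← card_pos]; omega) rfl)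

lemma Conn.card_le {S : Finset V} (hS : Conn G S) (hne : S.Nonempty) :
    2 * S.card ≤ (E G S).card + 2 := (cert_conn hS hne).card_le

end Pool.Agent.Lib.MP_943ac9_co
end

-- part Pool.Agent.Lib.MP_943ac9_co.Cert2
section

/-! Improved certificates for triangle-free graphs containing a cycle. -/

namespace Pool.Agent.Lib.MP_943ac9_co

open Finset

variable {V : Type*} [DecidableEq V] {G : SimpleGraph V} [DecidableRel G.Adj]

lemma cert_regular {S : Finset V} (hd : ∀ v ∈ S, deg G S v = 2) (ht : TriFree G S) (a b c N r : ℝ)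
    (hc : c * S.card = a - 2 * b) (hN : N = a ^ 2 + 2 * b ^ 2 - c * (a - 2 * b)) (hN0 : 0 < N)
    (hr : r * N = -2 * a * b - c * (a - 2 * b)) (hr1 : r < 1) :
    Cert G S ((E G S).card * (1 / (1 - r))) := by
  set δ : V → V → ℝ := fun v s => if s = v then 1 else 0 with hδ
  set β : V → V → ℝ := fun v s => if G.Adj v s then 1 else 0 with hβ
  set z : V → V → ℝ := fun v s => a * δ v s - b * β v s - c with hz
  have hβs : ∀ v ∈ S, ∑ s ∈ S, β v s = 2 := by
    intro v hv
    have := hd v hv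
    rw [deg, Finset.card_filter] at this
    simp only [hβ]
    exact_mod_cast this
  have hδs : ∀ v ∈ S, ∀ f : V → ℝ, ∑ s ∈ S, δ v s * f s = f v := by
    intro v hv f
    simp [hδ, hv]
  have key : ∀ v ∈ S, ∀ w ∈ S, ∑ s ∈ S, z v s * z w s =
      a ^ 2 * δ w v - a * b * β w v - a * b * β v w + b ^ 2 * ∑ s ∈ S, β v s * β w s -
        c * (a - 2 * b) := by
    intro v hv w hw
    have e : ∀ s, z v s * z w s = a ^ 2 * (δ v s * δ w s) - a * b * (δ v s * β w s) -
        a * b * (δ w s * β v s) + b ^ 2 * (β v s * β w s) - a * c * (δ v s * 1) -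
        a * c * (δ w s * 1) + b * c * β v s + b * c * β w s + c ^ 2 := by
      intro s; simp only [hz]; ring
    simp only [e, Finset.sum_add_distrib, Finset.sum_sub_distrib, ← Finset.mul_sum,
      hδs v hv, hδs w hw, hβs v hv, hβs w hw, Finset.sum_const, nsmul_eq_mul]
    linear_combination c * hc
  have hedge : ∀ e ∈ E G S, (∑ s ∈ S, z e.1 s * z e.2 s) / N = r := by
    intro e he
    rw [mem_E] at he
    rw [key _ he.1 _ he.2.1, div_eq_iff hN0.ne', hr]
    have h0 : ∑ s ∈ S, β e.1 s * β e.2 s = 0 := by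
      apply Finset.sum_eq_zero
      intro s hs
      by_cases h1 : G.Adj e.2 s
      · simp [hβ, ht _ he.1 _ he.2.1 _ hs he.2.2 h1]
      · simp [hβ, h1]
    rw [h0]
    simp only [hδ, hβ, he.2.2, he.2.2.symm, G.ne_of_adj he.2.2, if_true, if_false]
    ring
  refine ⟨fun v w => (∑ s ∈ S, z v s * z w s) / N, ⟨?_, ?_, ?_⟩, ?_, ?_⟩
  · intro v w; simp only [mul_comm]
  · intro y
    have : QF S (fun v w => (∑ s ∈ S, z v s * z w s) / N) y =
        (∑ s ∈ S, (∑ v ∈ S, z v s * y v) ^ 2) / N := by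
      simp only [QF, sq, Finset.sum_mul_sum]
      symm
      rw [Finset.sum_comm, Finset.sum_div]
      refine Finset.sum_congr rfl fun v _ => ?_
      rw [Finset.sum_comm, Finset.sum_div]
      refine Finset.sum_congr rfl fun w _ => ?_
      rw [div_mul_eq_mul_div, Finset.sum_mul]
      congr 1
      exact Finset.sum_congr rfl fun s _ => by ring
    rw [this]
    exact div_nonneg (Finset.sum_nonneg fun _ _ => sq_nonneg _) hN0.le
  · intro v hv
    rw [key v hv v hv, div_eq_one_iff_eq hN0.ne', hN]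
    have h0 : ∑ s ∈ S, β v s * β v s = 2 := by
      rw [← hβs v hv]
      refine Finset.sum_congr rfl fun s _ => ?_
      simp only [hβ]; split_ifs <;> simp
    rw [h0]
    simp only [hδ, hβ, G.irrefl, if_true, if_false]
    ring
  · intro e he
    exact (hedge e he).trans_lt hr1
  · beta_reduce
    rw [Finset.sum_congr rfl fun e he => by rw [hedge e he], Finset.sum_const, nsmul_eq_mul]

/-- degree counting: `t` vertices of degree `k`, all others of degree at least two -/
lemma deg_count {S : Finset V} (h2 : ∀ v ∈ S, 2 ≤ deg G S v) (k : ℕ) (T : Finset V) (hT : T ⊆ S)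
    (hk : ∀ v ∈ T, deg G S v = k) : T.card * k + 2 * S.card ≤ (E G S).card + 2 * T.card := by
  rw [card_E, ← Finset.sum_sdiff hT, Finset.sum_congr rfl hk, Finset.sum_const, smul_eq_mul]
  have h1 : 2 * (S \ T).card ≤ ∑ v ∈ S \ T, deg G S v := by
    rw [mul_comm, ← smul_eq_mul, ← Finset.sum_const]
    exact Finset.sum_le_sum fun v hv => h2 v (mem_sdiff.1 hv).1
  have h3 := Finset.card_sdiff_add_card_eq_card hT
  omega

theorem cert_trifree {S : Finset V} (hS : Conn G S) (ht : TriFree G S) (hne : S.Nonempty)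
    (hm : 2 * S.card ≤ (E G S).card) :
    Cert G S (qq G S - if S.card = 4 then 1 else 1 / 3) := by
  induction' hn : S.card using Nat.strong_induction_on with n ih generalizing S
  subst hn
  have hman := mantel ht
  have hpos := hne.card_pos
  have h4 : 4 ≤ S.card := by nlinarith
  have ih' : ∀ S' : Finset V, S'.card < S.card → Conn G S' → TriFree G S' → S'.Nonempty →
      2 * S'.card ≤ (E G S').card → Cert G S' (qq G S' - 1 / 3) := by
    intro S' h1 h2 h3 h5 h6
    refine (ih _ h1 h2 h3 h5 h6 rfl).mono ?_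
    split_ifs <;> linarith
  by_cases hc : ∀ u ∈ S, Conn G (S.erase u)
  · have hdeg : ∀ v ∈ S, 2 ≤ deg G S v := fun v hv => two_le_deg hS (by omega) hc hv
    obtain ⟨m, hm2⟩ := even_card_E (G := G) S
    obtain ⟨k, hk⟩ : ∃ k, m + 2 = k + S.card := ⟨m + 2 - S.card, by omega⟩
    have hne' : ∀ v ∈ S, (S.erase v).Nonempty := by
      intro v hv
      have := Finset.card_erase_add_one hv
      rw [← card_pos]; omega
    have hdk : ∀ v ∈ S, deg G S v ≤ k := by
      intro v hv
      have h1 := (hc v hv).card_le (hne' v hv)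
      have h2 := card_E_erase (G := G) hv
      have := Finset.card_erase_add_one hv
      omega
    have hn' : (4 : ℝ) ≤ S.card := by exact_mod_cast h4
    have hm' : 2 * (S.card : ℝ) ≤ (E G S).card := by exact_mod_cast hm
    have hman' : 2 * ((E G S).card : ℝ) ≤ S.card * S.card := by exact_mod_cast hman
    by_cases hk2 : k ≤ 2
    · have hreg : ∀ v ∈ S, deg G S v = 2 := fun v hv => le_antisymm ((hdk v hv).trans hk2)
        (hdeg v hv)
      have hE : ((E G S).card : ℝ) = 2 * S.card := by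
        have : (E G S).card = 2 * S.card := by omega
        exact_mod_cast this
      obtain h | h | h : S.card = 4 ∨ S.card = 5 ∨ 6 ≤ S.card := by omega
      · refine (cert_regular hreg ht 0 1 (-1 / 2) 1 (-1) (by rw [h]; norm_num) (by norm_num)
          (by norm_num) (by norm_num) (by norm_num)).mono ?_
        rw [qq, hE, h]; norm_num
      · refine (cert_regular hreg ht 1 (3 / 2) (-2 / 5) (47 / 10) (-38 / 47) (by rw [h]; norm_num)
          (by norm_num) (by norm_num) (by norm_num) (by norm_num)).mono ?_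
        rw [qq, hE, h]; norm_num
      · have h6 : (6 : ℝ) ≤ S.card := by exact_mod_cast h
        have hP : 0 < qq G S - 1 := by rw [qq]; linarith
        refine (Cert.average (by omega) _ (fun v hv => cert_conn (hc v hv) (hne' v hv)) hP
          (by omega) (sum_qq_erase S).le).mono ?_
        rw [if_neg (by omega)]
        apply avg_le (by linarith) hP (by linarith) (by linarith)
        rw [qq, hE]
        nlinarith
    · have hn4 : S.card ≠ 4 := by
        intro h; rw [h] at hman; omega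
      rw [if_neg hn4]
      set T := S.filter fun v => deg G S v = k with hT
      have hTc := deg_count hdeg k T (filter_subset _ _) (fun v hv => (mem_filter.1 hv).2)
      have hT2 : T.card ≤ 2 := by
        by_contra h
        obtain ⟨j, hj⟩ : ∃ j, T.card = j + 3 := ⟨T.card - 3, by omega⟩
        obtain ⟨l, rfl⟩ : ∃ l, k = l + 3 := ⟨k - 3, by omega⟩
        rw [hj] at hTc
        nlinarith
      have hP : 0 < qq G S - 4 / 3 := by rw [qq]; linarith
      refine (Cert.average (by omega)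
        (fun v => qq G (S.erase v) - if deg G S v = k then 0 else 1 / 3) ?_ hP (by omega) ?_).mono ?_
      · intro v hv
        split_ifs with h
        · simpa using cert_conn (hc v hv) (hne' v hv)
        · have h2 := card_E_erase (G := G) hv
          have := Finset.card_erase_add_one hv
          have := hdk v hv
          exact ih' _ (by omega) (hc v hv) (ht.mono (erase_subset _ _)) (hne' v hv) (by omega)
      · rw [Finset.sum_sub_distrib, sum_qq_erase, Finset.sum_ite, Finset.sum_const_zero,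
          Finset.sum_const, nsmul_eq_mul]
        have h1 := Finset.card_filter_add_card_filter_not (s := S) (fun v => deg G S v = k)
        have h2 : (S.card : ℝ) ≤ (S.filter fun v => ¬ deg G S v = k).card + 2 := by
          have : S.card ≤ (S.filter fun v => ¬ deg G S v = k).card + 2 := by
            rw [← hT] at h1; omega
          exact_mod_cast this
        linarith
      · apply avg_le (by linarith) hP (by linarith) (by linarith)
        rw [qq]
        nlinarith
  · push Not at hc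
    obtain ⟨u, hu, hc⟩ := hc
    obtain ⟨S1, S2, hs, c1, c2, n1, n2⟩ := exists_split hS hu hc
    have h1 := hs.card
    have h2 := hs.card_E
    have e1 := even_card_E (G := G) S1
    have e2 := even_card_E (G := G) S2
    rw [Nat.even_iff] at e1 e2
    have m1 := mantel (ht.mono hs.left_subset)
    have m2 := mantel (ht.mono hs.symm.left_subset)
    have ne1 : S1.Nonempty := ⟨u, hs.mem_left⟩
    have ne2 : S2.Nonempty := ⟨u, hs.mem_right⟩
    rw [hs.qq_eq]
    obtain h | h : 2 * S1.card ≤ (E G S1).card ∨ 2 * S2.card ≤ (E G S2).card := by omega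
    · have : 4 ≤ S1.card := by nlinarith
      rw [if_neg (by omega)]
      exact (Cert.glue hs (ih' _ (by omega) c1 (ht.mono hs.left_subset) ne1 h)
        (cert_conn c2 ne2)).mono (by linarith)
    · have : 4 ≤ S2.card := by nlinarith
      rw [if_neg (by omega)]
      exact (Cert.glue hs (cert_conn c1 ne1)
        (ih' _ (by omega) c2 (ht.mono hs.symm.left_subset) ne2 h)).mono (by linarith)

end Pool.Agent.Lib.MP_943ac9_co
end

-- part Pool.Agent.Lib.MP_943ac9_co.Fold
section

/-! The folded inequality. -/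

namespace Pool.Agent.Lib.MP_943ac9_co

open Finset

variable {V : Type*} [Fintype V] [DecidableEq V] {G : SimpleGraph V} [DecidableRel G.Adj]
  {ι : Type*} [Fintype ι]

noncomputable def Sh (x : V → ι → ℝ) (T : Finset V) (p : V → V) (th : V → ℝ) : ℝ :=
  ∑ v ∈ T, ∑ w ∈ T, (if p v = p w then th v * th w else 1) * gram x v w ^ 2

structure Fold (S T : Finset V) (p : V → V) (th : V → ℝ) : Prop where
  sub : S ⊆ T
  maps : ∀ v ∈ T, p v ∈ S
  fix : ∀ v ∈ S, p v = v
  one : ∀ v ∈ S, th v = 1
  bd : ∀ v, |th v| ≤ 1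

noncomputable def tau (G : SimpleGraph V) [DecidableRel G.Adj] (x : V → ι → ℝ) (S : Finset V) : ℝ :=
  ∑ e ∈ E G S, |gram x e.1 e.2|

def Pr (G : SimpleGraph V) [DecidableRel G.Adj] (x : V → ι → ℝ) (S : Finset V) (c : ℝ) : Prop :=
  ∀ T p th, Fold S T p th → tau G x S ^ 2 ≤ c * Sh x T p th

lemma fiber_QF {S T : Finset V} {p : V → V} (hp : ∀ v ∈ T, p v ∈ S) (Y : V → V → ℝ) (y : V → ℝ) :
    ∑ v ∈ T, ∑ w ∈ T, Y (p v) (p w) * (y v * y w) =
      QF S Y fun s => ∑ v ∈ T with p v = s, y v := by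
  simp only [QF, Finset.sum_mul_sum]
  simp only [Finset.mul_sum]
  rw [← Finset.sum_fiberwise_of_maps_to hp]
  refine Finset.sum_congr rfl fun s _ => ?_
  symm
  rw [Finset.sum_comm]
  refine Finset.sum_congr rfl fun v hv => ?_
  rw [← Finset.sum_fiberwise_of_maps_to hp]
  refine Finset.sum_congr rfl fun s' _ => Finset.sum_congr rfl fun w hw => ?_
  rw [(mem_filter.1 hv).2, (mem_filter.1 hw).2]

lemma key_nonneg (x : V → ι → ℝ) {S T : Finset V} {p : V → V} (hp : ∀ v ∈ T, p v ∈ S)
    (th : V → ℝ) {Y : V → V → ℝ} (hY : ∀ y, 0 ≤ QF S Y y) :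
    0 ≤ ∑ v ∈ T, ∑ w ∈ T, th v * th w * Y (p v) (p w) * gram x v w ^ 2 := by
  have : ∑ v ∈ T, ∑ w ∈ T, th v * th w * Y (p v) (p w) * gram x v w ^ 2 =
      ∑ k : ι × ι, ∑ v ∈ T, ∑ w ∈ T, Y (p v) (p w) *
        ((th v * x v k.1 * x v k.2) * (th w * x w k.1 * x w k.2)) := by
    symm
    rw [Finset.sum_comm]
    refine Finset.sum_congr rfl fun v _ => ?_
    rw [Finset.sum_comm]
    refine Finset.sum_congr rfl fun w _ => ?_
    rw [gram, sq, Finset.sum_mul_sum, ← Finset.sum_product', Finset.mul_sum]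
    exact Finset.sum_congr rfl fun k _ => by ring
  rw [this]
  refine Finset.sum_nonneg fun k _ => ?_
  rw [fiber_QF hp]
  exact hY _

lemma Sh_nonneg (x : V → ι → ℝ) {S T : Finset V} {p : V → V} {th : V → ℝ} (h : Fold S T p th) :
    0 ≤ Sh x T p th := by
  have h1 := key_nonneg x h.maps th (Y := fun a b => if a = b then 1 else 0) (by
    intro y
    refine Finset.sum_nonneg fun a ha => ?_
    simp [ha, mul_self_nonneg])
  refine h1.trans (Finset.sum_le_sum fun v _ => Finset.sum_le_sum fun w _ => ?_)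
  split_ifs
  · simp
  · simp [sq_nonneg]

lemma Pr.mono {x : V → ι → ℝ} {S : Finset V} {c c' : ℝ} (h : Pr G x S c) (hc : c ≤ c') :
    Pr G x S c' := fun T p th hf =>
  (h T p th hf).trans (mul_le_mul_of_nonneg_right hc (Sh_nonneg x hf))

lemma sum_E_le {S T : Finset V} (hST : S ⊆ T) (f : V → V → ℝ) (hf : ∀ v ∈ T, ∀ w ∈ T, 0 ≤ f v w) :
    ∑ e ∈ E G S, f e.1 e.2 ≤ ∑ v ∈ T, ∑ w ∈ T, f v w := by
  rw [← Finset.sum_product']
  apply Finset.sum_le_sum_of_subset_of_nonneg
  · intro e he
    rw [mem_E] at he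
    exact mem_product.2 ⟨hST he.1, hST he.2.1⟩
  · intro e he _
    rw [mem_product] at he
    exact hf _ he.1 _ he.2

lemma Pr.glue {x : V → ι → ℝ} {S S1 S2 : Finset V} {u : V} (hs : Split G S S1 S2 u) {c1 c2 : ℝ}
    (h1 : Pr G x S1 c1) (hc1 : 0 ≤ c1) (h2 : Cert G S2 c2) : Pr G x S (c1 + c2) := by
  obtain ⟨Z, hZ, hlt, hcost⟩ := h2
  intro T p th hf
  have hu1 := hs.mem_left
  have hu2 := hs.mem_right
  set p' : V → V := fun v => if p v ∈ S2 then u else p v with hp'
  set th' : V → ℝ := fun v => if p v ∈ S2 then th v * Z u (p v) else th v with hth'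
  have hf' : Fold S1 T p' th' := by
    refine ⟨hs.left_subset.trans hf.sub, ?_, ?_, ?_, ?_⟩
    · intro v hv
      simp only [hp']
      split_ifs with h
      · exact hu1
      · exact (hs.mem_or (hf.maps v hv)).resolve_right h
    · intro v hv
      simp only [hp', hf.fix v (hs.left_subset hv)]
      split_ifs with h
      · exact (hs.eq_of_mem hv h).symm
      · rfl
    · intro v hv
      simp only [hth', hf.fix v (hs.left_subset hv), hf.one v (hs.left_subset hv)]
      split_ifs with h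
      · rw [hs.eq_of_mem hv h, hZ.diag u hu2, mul_one]
      · rfl
    · intro v
      simp only [hth']
      split_ifs with h
      · rw [abs_mul]
        exact mul_le_one₀ (hf.bd v) (abs_nonneg _) (hZ.abs_le hu2 h)
      · exact hf.bd v
  set T2 := T.filter fun v => p v ∈ S2 with hT2
  have hmaps2 : ∀ v ∈ T2, p v ∈ S2 := fun v hv => (mem_filter.1 hv).2
  have hsub2 : S2 ⊆ T2 := fun v hv => mem_filter.2
    ⟨hf.sub (hs.symm.left_subset hv), by rw [hf.fix v (hs.symm.left_subset hv)]; exact hv⟩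
  set X := ∑ e ∈ E G S2, (1 - Z e.1 e.2) * gram x e.1 e.2 ^ 2 with hX
  have hdiff : Sh x T p th = Sh x T p' th' + ∑ v ∈ T2, ∑ w ∈ T2,
      ((if p v = p w then th v * th w else 1) - th v * th w * (Z u (p v) * Z u (p w))) *
        gram x v w ^ 2 := by
    rw [← sum_ite_subset (filter_subset _ T), Sh, Sh, ← Finset.sum_add_distrib]
    refine Finset.sum_congr rfl fun v hv => ?_
    rw [← Finset.sum_add_distrib]
    refine Finset.sum_congr rfl fun w hw => ?_
    simp only [hp', hth', mem_filter, hv, hw, true_and]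
    by_cases a1 : p v ∈ S2 <;> by_cases a2 : p w ∈ S2
    · simp only [a1, a2, if_true, and_self]; ring
    · have b1 : p v ≠ p w := fun h => a2 (h ▸ a1)
      have b2 : u ≠ p w := fun h => a2 (h ▸ hu2)
      simp [a1, a2, b1, b2]
    · have b1 : p v ≠ p w := fun h => a1 (h ▸ a2)
      have b2 : p v ≠ u := fun h => a1 (h ▸ hu2)
      simp [a1, a2, b1, b2]
    · simp [a1, a2]
  have hk := key_nonneg x hmaps2 th (hZ.resid hu2)
  have hX2 : X ≤ ∑ v ∈ T2, ∑ w ∈ T2,
      ((if p v = p w then th v * th w else 1) - th v * th w * Z (p v) (p w)) * gram x v w ^ 2 := by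
    refine le_trans (le_of_eq ?_) (sum_E_le (G := G) hsub2 _ ?_)
    · refine Finset.sum_congr rfl fun e he => ?_
      rw [mem_E] at he
      have a1 := hs.symm.left_subset he.1
      have a2 := hs.symm.left_subset he.2.1
      simp [hf.fix _ a1, hf.fix _ a2, hf.one _ a1, hf.one _ a2, G.ne_of_adj he.2.2]
    · intro v hv w hw
      apply mul_nonneg _ (sq_nonneg _)
      split_ifs with h
      · rw [h, hZ.diag _ (hmaps2 w hw)]; simp
      · have : |th v * th w * Z (p v) (p w)| ≤ 1 := by
          rw [abs_mul, abs_mul]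
          exact mul_le_one₀ (mul_le_one₀ (hf.bd v) (abs_nonneg _) (hf.bd w)) (abs_nonneg _)
            (hZ.abs_le (hmaps2 v hv) (hmaps2 w hw))
        linarith [(abs_le.1 this).2]
  have hge : Sh x T p' th' + X ≤ Sh x T p th := by
    rw [hdiff]
    have : ∑ v ∈ T2, ∑ w ∈ T2,
      ((if p v = p w then th v * th w else 1) - th v * th w * (Z u (p v) * Z u (p w))) *
        gram x v w ^ 2 = ∑ v ∈ T2, ∑ w ∈ T2,
      ((if p v = p w then th v * th w else 1) - th v * th w * Z (p v) (p w)) * gram x v w ^ 2 +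
        ∑ v ∈ T2, ∑ w ∈ T2, th v * th w * (Z (p v) (p w) - Z u (p v) * Z u (p w)) *
          gram x v w ^ 2 := by
      simp only [← Finset.sum_add_distrib]
      exact Finset.sum_congr rfl fun v _ => Finset.sum_congr rfl fun w _ => by ring
    rw [this]
    linarith
  have hpos : ∀ e ∈ E G S2, 0 < 1 - Z e.1 e.2 := fun e he => by linarith [hlt e he]
  have hX0 : 0 ≤ X := Finset.sum_nonneg fun e he => mul_nonneg (hpos e he).le (sq_nonneg _)
  have hc0 : 0 ≤ ∑ e ∈ E G S2, 1 / (1 - Z e.1 e.2) :=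
    Finset.sum_nonneg fun e he => (one_div_pos.2 (hpos e he)).le
  have hc2 : 0 ≤ c2 := hc0.trans hcost
  have t2 : tau G x S2 ^ 2 ≤ c2 * X := by
    refine le_trans ?_ (mul_le_mul_of_nonneg_right hcost hX0)
    apply Finset.sum_sq_le_sum_mul_sum_of_sq_le_mul
    · exact fun e he => (one_div_pos.2 (hpos e he)).le
    · exact fun e he => mul_nonneg (hpos e he).le (sq_nonneg _)
    · intro e he
      have := hpos e he
      rw [sq_abs]; apply le_of_eq; field_simp
  have t1 := h1 T p' th' hf'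
  have s0 := Sh_nonneg x hf'
  have ht : tau G x S = tau G x S1 + tau G x S2 := hs.sum_E _
  have h3 : 2 * (tau G x S1 * tau G x S2) ≤ c1 * X + c2 * Sh x T p' th' := by
    apply two_mul_le_add_of_sq_le_mul (by positivity) (by positivity)
    calc _ = tau G x S1 ^ 2 * tau G x S2 ^ 2 := by ring
      _ ≤ (c1 * Sh x T p' th') * (c2 * X) := by gcongr
      _ = _ := by ring
  calc tau G x S ^ 2 ≤ (c1 + c2) * (Sh x T p' th' + X) := by rw [ht]; nlinarith
    _ ≤ _ := by gcongr

lemma Cert.pr (x : V → ι → ℝ) {S : Finset V} (hne : S.Nonempty) {c : ℝ} (h : Cert G S c) :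
    Pr G x S c := by
  obtain ⟨u, hu⟩ := hne
  have hs : Split G S {u} S u := ⟨by simpa, by simpa, fun a ha _ _ _ => Or.inl (by simpa using ha)⟩
  have h0 : Pr G x {u} 0 := by
    intro T p th _
    have : E G {u} = ∅ := by
      ext e; simp only [mem_E, mem_singleton, notMem_empty, iff_false]
      rintro ⟨h1, h2, h3⟩
      exact G.ne_of_adj h3 (h1.trans h2.symm)
    simp [tau, this]
  simpa using Pr.glue hs h0 le_rfl h

lemma tau_sq_le (x : V → ι → ℝ) (S : Finset V) :
    tau G x S ^ 2 ≤ (E G S).card * ∑ e ∈ E G S, gram x e.1 e.2 ^ 2 := by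
  have := Finset.sum_mul_sq_le_sq_mul_sq (E G S) (fun _ => (1 : ℝ)) (fun e => |gram x e.1 e.2|)
  simpa [tau] using this

lemma Pr.average {x : V → ι → ℝ} {S : Finset V} (h3 : 3 ≤ S.card) (c : V → ℝ)
    (h : ∀ v ∈ S, Pr G x (S.erase v) (c v)) (hc : ∀ v ∈ S, 0 ≤ c v) {P : ℝ} (hP : 0 < P)
    (hE : 0 < (E G S).card) (hsum : ∑ v ∈ S, c v ≤ ((S.card : ℝ) - 2) * P) :
    Pr G x S (((S.card : ℝ) - 1) / (((S.card : ℝ) - 2) / P + 1 / (E G S).card)) := by
  intro T p th hf
  have hn : (3 : ℝ) ≤ S.card := by exact_mod_cast h3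
  have hE' : (0 : ℝ) < (E G S).card := by exact_mod_cast hE
  have hfv : ∀ v ∈ S, Fold (S.erase v) (T.filter fun a => p a ≠ v) p th := by
    intro v hv
    refine ⟨?_, ?_, fun a ha => hf.fix a (mem_erase.1 ha).2, fun a ha => hf.one a (mem_erase.1 ha).2,
      hf.bd⟩
    · intro a ha
      rw [mem_erase] at ha
      exact mem_filter.2 ⟨hf.sub ha.2, by rw [hf.fix a ha.2]; exact ha.1⟩
    · intro a ha
      rw [mem_filter] at ha
      exact mem_erase.2 ⟨ha.2, hf.maps a ha.1⟩
  set Off := ∑ a ∈ T, ∑ b ∈ T, (if p a = p b then 0 else 1) * gram x a b ^ 2 with hOff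
  have hS : ∑ v ∈ S, Sh x (T.filter fun a => p a ≠ v) p th =
      ((S.card : ℝ) - 1) * Sh x T p th - Off := by
    have : ∀ v ∈ S, Sh x (T.filter fun a => p a ≠ v) p th = ∑ a ∈ T, ∑ b ∈ T,
        if p a ≠ v ∧ p b ≠ v then (if p a = p b then th a * th b else 1) * gram x a b ^ 2
          else 0 := by
      intro v _
      rw [Sh, ← sum_ite_subset (filter_subset _ T)]
      refine Finset.sum_congr rfl fun a ha => Finset.sum_congr rfl fun b hb => ?_
      simp only [mem_filter, ha, hb, true_and]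
    rw [Finset.sum_congr rfl this, Finset.sum_comm, Sh, hOff, Finset.mul_sum,
      ← Finset.sum_sub_distrib]
    refine Finset.sum_congr rfl fun a ha => ?_
    rw [Finset.sum_comm, Finset.mul_sum, ← Finset.sum_sub_distrib]
    refine Finset.sum_congr rfl fun b hb => ?_
    rw [← Finset.sum_filter, Finset.sum_const, nsmul_eq_mul]
    have e : S.filter (fun v => p a ≠ v ∧ p b ≠ v) = (S.erase (p a)).erase (p b) := by
      ext v; simp only [mem_filter, mem_erase]; tauto
    have h4 := Finset.card_erase_add_one (hf.maps a ha)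
    rw [e, ← h4]
    by_cases hab : p a = p b
    · rw [← hab, erase_idem]; simp
    · have h2 : p b ∈ S.erase (p a) := mem_erase.2 ⟨Ne.symm hab, hf.maps b hb⟩
      have h5 := Finset.card_erase_add_one h2
      rw [← h5]; simp only [hab, if_false]; push_cast; ring
  have hO : tau G x S ^ 2 ≤ (E G S).card * Off := by
    refine (tau_sq_le x S).trans (mul_le_mul_of_nonneg_left ?_ hE'.le)
    refine le_trans (le_of_eq ?_) (sum_E_le (G := G) hf.sub _ ?_)
    · refine Finset.sum_congr rfl fun e he => ?_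
      rw [mem_E] at he
      simp [hf.fix _ he.1, hf.fix _ he.2.1, G.ne_of_adj he.2.2]
    · intro v _ w _
      split_ifs <;> simp [sq_nonneg]
  have hcs := Finset.sum_sq_le_sum_mul_sum_of_sq_le_mul S hc
    (fun v hv => Sh_nonneg x (hfv v hv)) (fun v hv => h v hv _ _ _ (hfv v hv))
  have h0 : 0 ≤ ∑ v ∈ S, Sh x (T.filter fun a => p a ≠ v) p th :=
    Finset.sum_nonneg fun v hv => Sh_nonneg x (hfv v hv)
  have ht : ∑ v ∈ S, tau G x (S.erase v) = ((S.card : ℝ) - 2) * tau G x S := sum_erase_E S _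
  have h5 := hcs.trans (mul_le_mul_of_nonneg_right hsum h0)
  rw [ht, hS] at h5
  have hn2 : 0 < (S.card : ℝ) - 2 := by linarith
  have h6 : ((S.card : ℝ) - 2) * tau G x S ^ 2 ≤ P * (((S.card : ℝ) - 1) * Sh x T p th - Off) := by
    apply le_of_mul_le_mul_left _ hn2
    nlinarith
  rw [div_mul_eq_mul_div, le_div_iff₀ (by positivity), mul_add]
  have h7 : tau G x S ^ 2 * (((S.card : ℝ) - 2) / P) ≤
      ((S.card : ℝ) - 1) * Sh x T p th - Off := by
    rw [← mul_div_assoc, div_le_iff₀ hP]; linarith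
  have h8 : tau G x S ^ 2 * (1 / ((E G S).card : ℝ)) ≤ Off := by
    rw [mul_one_div, div_le_iff₀ hE']; linarith
  linarith

end Pool.Agent.Lib.MP_943ac9_co
end

-- part Pool.Agent.Lib.MP_943ac9_co.Net
section

/-! The net lemma: the folded inequality for a triangle. -/

namespace Pool.Agent.Lib.MP_943ac9_co

open Finset Matrix

variable {V : Type*} [Fintype V] [DecidableEq V] {G : SimpleGraph V} [DecidableRel G.Adj]
  {ι : Type*} [Fintype ι]

lemma incl_mul {a b c : V} (nab : a ≠ b) (nbc : b ≠ c) (nac : a ≠ c) (f : V → V → ℝ) (v w : V) :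
    (incl ![a, b, c] * (Matrix.of fun i j : Fin 3 =>
      if i = j then 0 else f (![a, b, c] i) (![a, b, c] j)) * (incl ![a, b, c])ᵀ) v w =
      if v ∈ ({a, b, c} : Finset V) ∧ w ∈ ({a, b, c} : Finset V) ∧ v ≠ w then f v w else 0 := by
  have nba := nab.symm
  have ncb := nbc.symm
  have nca := nac.symm
  simp only [Matrix.mul_apply, Fin.sum_univ_three, incl, transpose_apply, of_apply,
    mem_insert, mem_singleton, cons_val_zero, cons_val_one, cons_val_two, head_cons, tail_cons]
  by_cases v1 : v = a <;> by_cases v2 : v = b <;> by_cases v3 : v = c <;>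
    by_cases w1 : w = a <;> by_cases w2 : w = b <;> by_cases w3 : w = c <;>
    simp_all

theorem net (x : V → ι → ℝ) {a b c : V} (hab : G.Adj a b) (hbc : G.Adj b c) (hac : G.Adj a c)
    (hprod : gram x a b * gram x b c * gram x a c ≤ 0) : Pr G x {a, b, c} 3 := by
  intro T p th hf
  have nab := G.ne_of_adj hab
  have nbc := G.ne_of_adj hbc
  have nac := G.ne_of_adj hac
  set S : Finset V := {a, b, c} with hS
  have ha : a ∈ S := by simp [hS]
  have hb : b ∈ S := by simp [hS]
  have hc : c ∈ S := by simp [hS]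
  set x' : V → ι → ℝ := fun v k => (if v ∈ T then √|th v| else 0) * x v k with hx'
  set σ : V → ℝ := fun v => if 0 ≤ th v then 1 else -1 with hσ
  have hσσ : ∀ v, σ v * σ v = 1 := by
    intro v; simp only [hσ]; split_ifs <;> simp
  have hσth : ∀ v, th v = σ v * |th v| := by
    intro v; simp only [hσ]
    split_ifs with h
    · rw [abs_of_nonneg h, one_mul]
    · rw [abs_of_neg (not_le.1 h)]; ring
  have hg : ∀ v w, gram x' v w =
      (if v ∈ T then √|th v| else 0) * (if w ∈ T then √|th w| else 0) * gram x v w := by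
    intro v w
    simp only [gram, hx', Finset.mul_sum]
    exact Finset.sum_congr rfl fun k _ => by ring
  have hgS : ∀ v ∈ S, ∀ w ∈ S, gram x' v w = gram x v w := by
    intro v hv w hw
    simp [hg, hf.sub hv, hf.sub hw, hf.one v hv, hf.one w hw]
  obtain ⟨W0, hW0⟩ : ∃ W0 : Matrix V V ℝ, ∀ v w,
      W0 v w = if p v = p w ∧ σ v * σ w = -1 then -gram x' v w else 0 :=
    ⟨Matrix.of fun v w => _, fun _ _ => rfl⟩
  obtain ⟨R, hR⟩ : ∃ R : Matrix V V ℝ, ∀ v w,
      R v w = if v ∈ S ∧ w ∈ S ∧ v ≠ w then -gram x v w else 0 :=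
    ⟨Matrix.of fun v w => _, fun _ _ => rfl⟩
  have hW0h : W0.IsHermitian := by
    ext v w
    simp only [conjTranspose_apply, star_trivial, hW0, gram_comm x' w v, mul_comm (σ w),
      eq_comm (a := p w)]
  have hRh : R.IsHermitian := by
    ext v w
    simp only [conjTranspose_apply, star_trivial, hR, gram_comm x w v]
    congr 1
    apply propext
    constructor <;> exact fun h => ⟨h.2.1, h.1, h.2.2.symm⟩
  have hWh : (W0 + R).IsHermitian := hW0h.add hRh
  have hspec := net_spec hWh hW0h p σ hσσ (fun v w h => by simp [hW0, h])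
    (fun v w => by
      simp only [hW0]
      split_ifs with h
      · linear_combination (-gram x' v w) * h.2
      · simp) ![a, b, c]
    (fun i j h => by
      have e1 := hf.fix a ha
      have e2 := hf.fix b hb
      have e3 := hf.fix c hc
      fin_cases i <;> fin_cases j <;>
        simp [e1, e2, e3, nab, nbc, nac, nab.symm, nbc.symm, nac.symm] at h ⊢)
    (Matrix.of fun i j : Fin 3 =>
      if i = j then 0 else (fun v w => -gram x v w) (![a, b, c] i) (![a, b, c] j))
    (fun i => by simp)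
    (fun i j => by simp only [of_apply, eq_comm (a := i), gram_comm x (![a, b, c] i)])
    (by simp; linarith) (by
      congr 1
      ext v w
      exact (hR v w).trans (incl_mul nab nbc nac (fun v w => -gram x v w) v w).symm)
  have hcase : ∀ v w, (R v w = 0) ∨ (W0 v w = 0 ∧ R v w = -gram x' v w) := by
    intro v w
    by_cases h : v ∈ S ∧ w ∈ S ∧ v ≠ w
    · right
      refine ⟨?_, ?_⟩
      · simp [hW0, hf.fix v h.1, hf.fix w h.2.1, h.2.2]
      · simp only [hR, if_pos h, hgS v h.1 w h.2.1]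
    · left; simp only [hR, if_neg h]
  have h2 := two_norm_le hWh hspec x' (by
    simp only [← Finset.sum_neg_distrib]
    refine Finset.sum_congr rfl fun v _ => Finset.sum_congr rfl fun w _ => ?_
    rw [Matrix.add_apply]
    rcases hcase v w with h | h
    · rw [h]; simp only [hW0]; split_ifs <;> ring
    · rw [h.1, h.2]; ring)
  have h3 : ∑ v, ∑ w, (W0 + R) v w ^ 2 = ∑ v, ∑ w, W0 v w ^ 2 + ∑ v, ∑ w, R v w ^ 2 := by
    simp only [← Finset.sum_add_distrib]
    refine Finset.sum_congr rfl fun v _ => Finset.sum_congr rfl fun w _ => ?_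
    rw [Matrix.add_apply]
    rcases hcase v w with h | h
    · rw [h]; ring
    · rw [h.1]; ring
  have h4 : ∑ e ∈ E G S, gram x e.1 e.2 ^ 2 ≤ ∑ v, ∑ w, R v w ^ 2 := by
    refine le_trans (le_of_eq ?_)
      (sum_E_le (G := G) (subset_univ S) (fun v w => R v w ^ 2) fun _ _ _ _ => sq_nonneg _)
    refine Finset.sum_congr rfl fun e he => ?_
    rw [mem_E] at he
    simp [hR, he.1, he.2.1, G.ne_of_adj he.2.2]
  have h5 : ∑ v, ∑ w, gram x' v w ^ 2 - 2 * ∑ v, ∑ w, W0 v w ^ 2 ≤ Sh x T p th := by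
    rw [Sh, ← sum_ite_subset (subset_univ T)]
    simp only [Finset.mul_sum, ← Finset.sum_sub_distrib]
    refine Finset.sum_le_sum fun v _ => Finset.sum_le_sum fun w _ => ?_
    by_cases h : v ∈ T ∧ w ∈ T
    · have e : gram x' v w ^ 2 = |th v| * |th w| * gram x v w ^ 2 := by
        rw [hg, if_pos h.1, if_pos h.2, mul_pow, mul_pow, Real.sq_sqrt (abs_nonneg _),
          Real.sq_sqrt (abs_nonneg _)]
      rw [if_pos h]
      simp only [hW0]
      by_cases hp : p v = p w
      · have e2 : th v * th w = σ v * σ w * (|th v| * |th w|) := by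
          conv_lhs => rw [hσth v, hσth w]
          ring
        simp only [hp, true_and, if_true]
        split_ifs with hs
        · rw [neg_sq, e, e2, hs]; apply le_of_eq; ring
        · have : σ v * σ w = 1 := by
            simp only [hσ] at hs ⊢
            by_cases a1 : 0 ≤ th v <;> by_cases a2 : 0 ≤ th w <;> simp [a1, a2] at hs ⊢
          rw [e, e2, this]; apply le_of_eq; ring
      · simp only [hp, false_and, if_false, e]
        have : |th v| * |th w| ≤ 1 := mul_le_one₀ (hf.bd v) (abs_nonneg _) (hf.bd w)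
        nlinarith [sq_nonneg (gram x v w)]
    · have e : gram x' v w = 0 := by
        rw [hg]
        by_cases h1 : v ∈ T
        · have h2 : w ∉ T := fun h2 => h ⟨h1, h2⟩
          simp [h2]
        · simp [h1]
      simp [hW0, h, e]
  have h6 := tau_sq_le (G := G) x S
  have h7 : ((E G S).card : ℝ) ≤ 6 := by
    have h8 := card_E_le (G := G) S
    have h9 : S.card = 3 := by
      rw [hS, card_insert_of_notMem (by simp [nab, nac]), card_pair nbc]
    rw [h9] at h8
    exact_mod_cast (show (E G S).card ≤ 6 by omega)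
  have h10 : 0 ≤ ∑ e ∈ E G S, gram x e.1 e.2 ^ 2 := Finset.sum_nonneg fun _ _ => sq_nonneg _
  nlinarith

end Pool.Agent.Lib.MP_943ac9_co
end
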