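import Mathlib
import Pool.Agent.Lib.MP_943ac9_co.Net

-- part Pool.Agent.Lib.MP_943ac9_co.Main
section

/-! Main induction. -/

namespace Pool.Agent.Lib.MP_943ac9_co

open Finset

variable {V : Type*} [Fintype V] [DecidableEq V] {G : SimpleGraph V} [DecidableRel G.Adj]
  {ι : Type*} [Fintype ι]

lemma card_le_deg {S N : Finset V} {v : V} (h : ∀ w ∈ N, w ∈ S ∧ G.Adj v w) :
    N.card ≤ deg G S v :=
  card_le_card fun w hw => mem_filter.2 (h w hw)

lemma Split.tri {S S1 S2 : Finset V} {u : V} (hs : Split G S S1 S2 u) (h1 : TriFree G S1)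
    (h2 : TriFree G S2) : TriFree G S := by
  intro a ha b hb c hc hab hbc hac
  have key : ∀ x ∈ S, ∀ y ∈ S, G.Adj x y → x ∉ S1 → y ∈ S2 := by
    intro x hx y hy hxy hx1
    by_contra hy2
    rcases hs.edge y ((hs.mem_or hy).resolve_right hy2) x ((hs.mem_or hx).resolve_left hx1)
      hxy.symm with h | h
    · exact hy2 (h ▸ hs.mem_right)
    · exact hx1 (h ▸ hs.mem_left)
  by_cases a1 : a ∈ S1
  · by_cases b1 : b ∈ S1
    · by_cases c1 : c ∈ S1
      · exact h1 a a1 b b1 c c1 hab hbc hac
      · exact h2 a (key c hc a ha hac.symm c1) b (key c hc b hb hbc.symm c1) c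
          ((hs.mem_or hc).resolve_left c1) hab hbc hac
    · exact h2 a (key b hb a ha hab.symm b1) b ((hs.mem_or hb).resolve_left b1) c
        (key b hb c hc hbc b1) hab hbc hac
  · exact h2 a ((hs.mem_or ha).resolve_left a1) b (key a ha b hb hab a1) c
      (key a ha c hc hac a1) hab hbc hac

lemma TriFree.mem_tri {S : Finset V} {v : V} (h : TriFree G (S.erase v)) {a b c : V}
    (ha : a ∈ S) (hb : b ∈ S) (hc : c ∈ S) (hab : G.Adj a b) (hbc : G.Adj b c)
    (hac : G.Adj a c) : a = v ∨ b = v ∨ c = v := by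
  by_contra hn
  push Not at hn
  exact h a (mem_erase.2 ⟨hn.1, ha⟩) b (mem_erase.2 ⟨hn.2.1, hb⟩) c (mem_erase.2 ⟨hn.2.2, hc⟩)
    hab hbc hac

lemma mantel_two_bad {S : Finset V} {a b : V} (ha : a ∈ S) (hb : b ∈ S) (hab : G.Adj a b)
    (h1 : TriFree G (S.erase a)) (h2 : TriFree G (S.erase b)) :
    2 * (E G S).card ≤ S.card * S.card + 4 := by
  have h3 : TriFree (del G a b) S := by
    intro x hx y hy z hz hxy hyz hxz
    have n := G.ne_of_adj hab
    rw [del_adj] at hxy hyz hxz
    rcases h1.mem_tri hx hy hz hxy.1 hyz.1 hxz.1 with e | e | e <;>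
      rcases h2.mem_tri hx hy hz hxy.1 hyz.1 hxz.1 with e' | e' | e' <;>
      first
        | exact n (e.symm.trans e')
        | tauto
  have := mantel h3
  have := card_E_del ha hb hab
  omega

lemma deg_sum_tri {S : Finset V} {a b c : V} (ha : a ∈ S) (hb : b ∈ S) (hc : c ∈ S)
    (hab : G.Adj a b) (hbc : G.Adj b c) (hac : G.Adj a c) (h1 : TriFree G (S.erase a))
    (h2 : TriFree G (S.erase b)) (h3 : TriFree G (S.erase c)) :
    deg G S a + deg G S b + deg G S c ≤ S.card + 3 := by
  have nab := G.ne_of_adj hab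
  have nbc := G.ne_of_adj hbc
  have nac := G.ne_of_adj hac
  simp only [deg, Finset.card_filter, ← Finset.sum_add_distrib]
  calc _ ≤ ∑ w ∈ S, (1 + ((if w = a then 1 else 0) + (if w = b then 1 else 0) +
        (if w = c then 1 else 0))) := by
        refine Finset.sum_le_sum fun w hw => ?_
        by_cases wa : w = a
        · subst wa; simp only [G.irrefl, if_false, if_true]; split_ifs <;> omega
        by_cases wb : w = b
        · subst wb; simp only [G.irrefl, if_false, if_true]; split_ifs <;> omega
        by_cases wc : w = c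
        · subst wc; simp only [G.irrefl, if_false, if_true]; split_ifs <;> omega
        have e1 : ¬ (G.Adj a w ∧ G.Adj b w) := fun h => by
          rcases h3.mem_tri ha hb hw hab h.2 h.1 with e | e | e
          exacts [nac e, nbc e, wc e]
        have e2 : ¬ (G.Adj b w ∧ G.Adj c w) := fun h => by
          rcases h1.mem_tri hb hc hw hbc h.2 h.1 with e | e | e
          exacts [nab e.symm, nac e.symm, wa e]
        have e3 : ¬ (G.Adj a w ∧ G.Adj c w) := fun h => by
          rcases h2.mem_tri ha hc hw hac h.2 h.1 with e | e | e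
          exacts [nab e, nbc e.symm, wb e]
        by_cases f1 : G.Adj a w <;> by_cases f2 : G.Adj b w <;> by_cases f3 : G.Adj c w <;>
          simp_all
    _ = S.card + 3 := by
        simp [Finset.sum_add_distrib, ha, hb, hc]

lemma three_le_deg_or {S : Finset V} {a b c : V} (ha : a ∈ S) (hb : b ∈ S) (hc : c ∈ S)
    (hab : G.Adj a b) (hbc : G.Adj b c) (hac : G.Adj a c) (h4 : 4 ≤ S.card)
    (h : Conn G (S.erase c)) : 3 ≤ deg G S a ∨ 3 ≤ deg G S b := by
  have nab := G.ne_of_adj hab
  have nbc := G.ne_of_adj hbc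
  have nac := G.ne_of_adj hac
  obtain ⟨x, hx, y, hy, hy2, hxy⟩ := h {a, b} (by
    intro z hz
    simp only [mem_insert, mem_singleton] at hz
    rcases hz with rfl | rfl
    exacts [mem_erase.2 ⟨nac, ha⟩, mem_erase.2 ⟨nbc, hb⟩]) (by simp) (by
    intro e
    have h1 := congrArg Finset.card e
    rw [card_pair nab, card_erase_of_mem hc] at h1
    omega)
  simp only [mem_insert, mem_singleton, not_or] at hx hy2
  rw [mem_erase] at hy
  rcases hx with rfl | rfl
  · left
    have : ({y, b, c} : Finset V).card = 3 := by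
      rw [card_insert_of_notMem (by simp [hy2.2, hy.1]), card_pair nbc]
    rw [← this]
    apply card_le_deg
    intro w hw
    simp only [mem_insert, mem_singleton] at hw
    rcases hw with rfl | rfl | rfl
    exacts [⟨hy.2, hxy⟩, ⟨hb, hab⟩, ⟨hc, hac⟩]
  · right
    have : ({y, a, c} : Finset V).card = 3 := by
      rw [card_insert_of_notMem (by simp [hy2.1, hy.1]), card_pair nac]
    rw [← this]
    apply card_le_deg
    intro w hw
    simp only [mem_insert, mem_singleton] at hw
    rcases hw with rfl | rfl | rfl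
    exacts [⟨hy.2, hxy⟩, ⟨ha, hab.symm⟩, ⟨hc, hbc⟩]

lemma arith_mono {n q t t0 : ℝ} (hn : 4 ≤ n) (hq : 0 ≤ q) (ht : t ≤ t0)
    (h : t0 * q * (n - 2) ≤ n * (n - 1) * (n - t0)) : t * q * (n - 2) ≤ n * (n - 1) * (n - t) := by
  have h1 : 0 ≤ (t0 - t) * (q * (n - 2)) := mul_nonneg (by linarith) (mul_nonneg hq (by linarith))
  have h2 : 0 ≤ (t0 - t) * (n * (n - 1)) :=
    mul_nonneg (by linarith) (mul_nonneg (by linarith) (by linarith))
  nlinarith

open Classical in
theorem main_pr (x : V → ι → ℝ)
    (hprod : ∀ a b c, G.Adj a b → G.Adj b c → G.Adj a c →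
      gram x a b * gram x b c * gram x a c ≤ 0)
    {S : Finset V} (hS : Conn G S) (ht : ¬ TriFree G S) : Pr G x S (qq G S - 1) := by
  induction' hn : S.card using Nat.strong_induction_on with n ih generalizing S
  subst hn
  have ih' : ∀ S' : Finset V, S'.card < S.card → Conn G S' → ¬ TriFree G S' →
      Pr G x S' (qq G S' - 1) := fun S' h1 h2 h3 => ih _ h1 h2 h3 rfl
  have ht' := ht
  unfold TriFree at ht'
  push Not at ht'
  obtain ⟨a, ha, b, hb, c, hc, hab, hbc, hac⟩ := ht'
  have nab := G.ne_of_adj hab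
  have nbc := G.ne_of_adj hbc
  have nac := G.ne_of_adj hac
  have hsub : ({a, b, c} : Finset V) ⊆ S := by
    intro z hz
    simp only [mem_insert, mem_singleton] at hz
    rcases hz with rfl | rfl | rfl <;> assumption
  have hc3 : ({a, b, c} : Finset V).card = 3 := by
    rw [card_insert_of_notMem (by simp [nab, nac]), card_pair nbc]
  have h3 : 3 ≤ S.card := hc3 ▸ card_le_card hsub
  by_cases hcut : ∀ u ∈ S, Conn G (S.erase u)
  swap
  · push Not at hcut
    obtain ⟨u, hu, hcut⟩ := hcut
    obtain ⟨S1, S2, hs, c1, c2, n1, n2⟩ := exists_split hS hu hcut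
    have h1 := hs.card
    have key : ∀ S1 S2 : Finset V, Split G S S1 S2 u → Conn G S1 → Conn G S2 → S1.card < S.card →
        2 ≤ S1.card → ¬ TriFree G S1 → Pr G x S (qq G S - 1) := by
      intro S1 S2 hs c1 c2 n1 n2 t1
      have h5 := c1.card_le ⟨u, hs.mem_left⟩
      have h6 : 2 * (S1.card : ℝ) ≤ (E G S1).card + 2 := by exact_mod_cast h5
      have h7 : (2 : ℝ) ≤ S1.card := by exact_mod_cast n2
      refine (Pr.glue hs (ih' S1 n1 c1 t1) (by rw [qq]; linarith)
        (cert_conn c2 ⟨u, hs.mem_right⟩)).mono ?_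
      rw [hs.qq_eq]; linarith
    by_cases t1 : TriFree G S1
    · exact key S2 S1 hs.symm c2 c1 (by omega) n2 fun t2 => ht (hs.tri t1 t2)
    · exact key S1 S2 hs c1 c2 (by omega) n1 t1
  have hdeg : ∀ v ∈ S, 2 ≤ deg G S v := fun v hv => two_le_deg hS h3 hcut hv
  have hm : 2 * S.card ≤ (E G S).card := by
    rw [card_E, mul_comm, ← smul_eq_mul, ← Finset.sum_const]
    exact Finset.sum_le_sum hdeg
  have hm' : 2 * (S.card : ℝ) ≤ (E G S).card := by exact_mod_cast hm
  by_cases hn3 : S.card = 3
  · have e : S = {a, b, c} := (eq_of_subset_of_card_le hsub (by omega)).symm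
    have := net (G := G) x hab hbc hac (hprod a b c hab hbc hac)
    rw [← e] at this
    refine this.mono ?_
    have h5 : (S.card : ℝ) = 3 := by exact_mod_cast hn3
    rw [qq]
    linarith
  have h4 : 4 ≤ S.card := by omega
  have h4' : (4 : ℝ) ≤ S.card := by exact_mod_cast h4
  obtain ⟨m, hm2⟩ := even_card_E (G := G) S
  obtain ⟨k, hk⟩ : ∃ k, m + 2 = k + S.card := ⟨m + 2 - S.card, by omega⟩
  have hne' : ∀ v ∈ S, (S.erase v).Nonempty := by
    intro v hv
    have := Finset.card_erase_add_one hv
    rw [← card_pos]; omega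
  have hdk : ∀ v ∈ S, deg G S v ≤ k := by
    intro v hv
    have h1 := (hcut v hv).card_le (hne' v hv)
    have h2 := card_E_erase (G := G) hv
    have := Finset.card_erase_add_one hv
    omega
  set l : V → ℝ := fun v => if TriFree G (S.erase v) then
    (if deg G S v = k then 1 else if S.card = 5 then 0 else 2 / 3) else 0 with hl
  have hl0 : ∀ v, 0 ≤ l v := by
    intro v; simp only [hl]; split_ifs <;> norm_num
  have hl1 : ∀ v, l v ≤ 1 := by
    intro v; simp only [hl]; split_ifs <;> norm_num
  have hlg : ∀ v, ¬ TriFree G (S.erase v) → l v = 0 := fun v h => by simp [hl, h]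
  have hl2 : ∀ v, deg G S v ≠ k → l v ≤ 2 / 3 := by
    intro v h; simp only [hl, h, if_false]; split_ifs <;> norm_num
  have hl3 : ∀ v, deg G S v ≠ k → S.card = 5 → l v = 0 := by
    intro v h h5; simp [hl, h, h5]
  set t := ∑ v ∈ S, l v with htdef
  have ht3 : t = l a + l b + l c := by
    rw [htdef, ← Finset.sum_subset hsub, Finset.sum_insert (by simp [nab, nac]),
      Finset.sum_pair nbc, add_assoc]
    intro v hv hv2
    apply hlg
    intro h
    simp only [mem_insert, mem_singleton, not_or] at hv2
    rcases h.mem_tri ha hb hc hab hbc hac with e | e | e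
    exacts [hv2.1 e.symm, hv2.2.1 e.symm, hv2.2.2 e.symm]
  have ht0 : 0 ≤ t := Finset.sum_nonneg fun v _ => hl0 v
  set q : ℝ := (E G S).card - S.card with hq
  have hq0 : 0 ≤ q := by linarith
  have hqk : q = S.card - 4 + 2 * k := by
    have : (E G S).card + 4 = 2 * S.card + 2 * k := by omega
    have h' : ((E G S).card : ℝ) + 4 = 2 * S.card + 2 * k := by exact_mod_cast this
    linarith
  have H1 : t ≤ 1 → t * q * (S.card - 2) ≤ S.card * (S.card - 1) * (S.card - t) := by
    intro h
    apply arith_mono h4' hq0 h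
    have hle : ((E G S).card : ℝ) + S.card ≤ S.card * S.card := by exact_mod_cast card_E_le S
    have : q ≤ S.card * (S.card - 2) := by linarith
    nlinarith
  have H2 : 2 * (E G S).card ≤ S.card * S.card + 4 → t ≤ 2 →
      t * q * (S.card - 2) ≤ S.card * (S.card - 1) * (S.card - t) := by
    intro h0 h
    apply arith_mono h4' hq0 h
    have hle : 2 * ((E G S).card : ℝ) ≤ S.card * S.card + 4 := by exact_mod_cast h0
    have : 2 * q ≤ S.card * (S.card - 1) := by nlinarith
    nlinarith
  have H3 : k + 2 ≤ S.card → t ≤ 7 / 3 →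
      t * q * (S.card - 2) ≤ S.card * (S.card - 1) * (S.card - t) := by
    intro h0 h
    apply arith_mono h4' hq0 h
    have hle : (k : ℝ) + 2 ≤ S.card := by exact_mod_cast h0
    have h5 : q ≤ 3 * S.card - 8 := by linarith
    have h6 : 7 / 3 * q * (S.card - 2) ≤ 7 / 3 * (3 * S.card - 8) * (S.card - 2) := by
      gcongr; linarith
    obtain ⟨j, hj⟩ : ∃ j : ℝ, j = S.card - 4 := ⟨_, rfl⟩
    have hj0 : 0 ≤ j := by linarith
    have : (S.card : ℝ) = j + 4 := by linarith
    rw [this] at h6 ⊢
    nlinarith [mul_nonneg hj0 hj0, mul_nonneg hj0 (mul_nonneg hj0 hj0)]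
  have H4 : 2 * k ≤ S.card + 1 → 6 ≤ S.card → t ≤ 8 / 3 →
      t * q * (S.card - 2) ≤ S.card * (S.card - 1) * (S.card - t) := by
    intro h0 h00 h
    apply arith_mono h4' hq0 h
    have hle : 2 * (k : ℝ) ≤ S.card + 1 := by exact_mod_cast h0
    have hle2 : (6 : ℝ) ≤ S.card := by exact_mod_cast h00
    have h5 : q ≤ 2 * S.card - 3 := by linarith
    have h6 : 8 / 3 * q * (S.card - 2) ≤ 8 / 3 * (2 * S.card - 3) * (S.card - 2) := by
      gcongr; linarith
    obtain ⟨j, hj⟩ : ∃ j : ℝ, j = S.card - 6 := ⟨_, rfl⟩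
    have hj0 : 0 ≤ j := by linarith
    have : (S.card : ℝ) = j + 6 := by linarith
    rw [this] at h6 ⊢
    nlinarith [mul_nonneg hj0 hj0, mul_nonneg hj0 (mul_nonneg hj0 hj0)]
  have H : t * q * (S.card - 2) ≤ S.card * (S.card - 1) * (S.card - t) := by
    have a1 := hl1 a
    have b1 := hl1 b
    have c1 := hl1 c
    by_cases ta : TriFree G (S.erase a) <;> by_cases tb : TriFree G (S.erase b) <;>
      by_cases tc : TriFree G (S.erase c)
    · have man := mantel_two_bad ha hb hab ta tb
      have s1 := deg_sum_tri ha hb hc hab hbc hac ta tb tc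
      have s2 := three_le_deg_or ha hb hc hab hbc hac h4 (hcut c hc)
      have s3 := three_le_deg_or hb hc ha hbc hac.symm hab.symm h4 (hcut a ha)
      have s4 := three_le_deg_or ha hc hb hac hbc.symm hab h4 (hcut b hb)
      have da := hdeg a ha
      have db := hdeg b hb
      have dc := hdeg c hc
      have ka := hdk a ha
      have kb := hdk b hb
      have kc := hdk c hc
      by_cases ea : deg G S a = k <;> by_cases eb : deg G S b = k <;>
        by_cases ec : deg G S c = k
      · exfalso
        have := deg_count hdeg k {a, b, c} hsub (by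
          intro z hz
          simp only [mem_insert, mem_singleton] at hz
          rcases hz with rfl | rfl | rfl <;> assumption)
        rw [hc3] at this
        omega
      · by_cases h5 : S.card = 5
        · exact H2 man (by linarith [hl3 c ec h5])
        · exact H4 (by omega) (by omega) (by linarith [hl2 c ec])
      · by_cases h5 : S.card = 5
        · exact H2 man (by linarith [hl3 b eb h5])
        · exact H4 (by omega) (by omega) (by linarith [hl2 b eb])
      · exact H3 (by omega) (by linarith [hl2 b eb, hl2 c ec])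
      · by_cases h5 : S.card = 5
        · exact H2 man (by linarith [hl3 a ea h5])
        · exact H4 (by omega) (by omega) (by linarith [hl2 a ea])
      · exact H3 (by omega) (by linarith [hl2 a ea, hl2 c ec])
      · exact H3 (by omega) (by linarith [hl2 a ea, hl2 b eb])
      · exact H2 man (by linarith [hl2 a ea, hl2 b eb, hl2 c ec])
    · exact H2 (mantel_two_bad ha hb hab ta tb) (by linarith [hlg c tc])
    · exact H2 (mantel_two_bad ha hc hac ta tc) (by linarith [hlg b tb])
    · exact H1 (by linarith [hlg b tb, hlg c tc])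
    · exact H2 (mantel_two_bad hb hc hbc tb tc) (by linarith [hlg a ta])
    · exact H1 (by linarith [hlg a ta, hlg c tc])
    · exact H1 (by linarith [hlg a ta, hlg b tb])
    · exact H1 (by linarith [hlg a ta, hlg b tb, hlg c tc])
  obtain ⟨δ, hδ⟩ : ∃ δ : ℝ, δ * (S.card - 2) = S.card - t :=
    ⟨(S.card - t) / (S.card - 2), div_mul_cancel₀ _ (by linarith)⟩
  have hδ2 : δ ≤ 2 := by
    by_contra h
    push Not at h
    nlinarith
  have hP : 0 < q - δ := by linarith
  have hqq : qq G S - 1 = q := by rw [qq]; ring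
  refine (Pr.average h3 (fun v => qq G (S.erase v) - 1 + l v) ?_ ?_ hP (by omega) ?_).mono ?_
  · intro v hv
    have h2 := card_E_erase (G := G) hv
    have h5 := Finset.card_erase_add_one hv
    have h6 := hdk v hv
    by_cases tv : TriFree G (S.erase v)
    · apply Cert.pr x (hne' v hv)
      by_cases ev : deg G S v = k
      · simpa [hl, tv, ev] using cert_conn (hcut v hv) (hne' v hv)
      · refine (cert_trifree (hcut v hv) tv (hne' v hv) (by omega)).mono ?_
        simp only [hl, tv, ev, if_true, if_false]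
        by_cases h7 : S.card = 5
        · rw [if_pos h7, if_pos (by omega)]; linarith
        · rw [if_neg h7, if_neg (by omega)]; linarith
    · simpa [hlg v tv] using ih' _ (by omega) (hcut v hv) tv
  · intro v hv
    have h5 := Finset.card_erase_add_one hv
    have h6 : 2 * ((S.erase v).card : ℝ) ≤ (E G (S.erase v)).card + 2 := by
      exact_mod_cast (hcut v hv).card_le (hne' v hv)
    have h7 : (3 : ℝ) ≤ (S.erase v).card := by exact_mod_cast (show 3 ≤ (S.erase v).card by omega)
    have := hl0 v
    simp only [qq]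
    linarith
  · rw [Finset.sum_add_distrib, Finset.sum_sub_distrib, sum_qq_erase, hqq, ← htdef]
    simp only [Finset.sum_const, nsmul_eq_mul, mul_one]
    linarith
  · rw [hqq]
    apply avg_le (by linarith) hP (by linarith) (by linarith)
    have hE : ((E G S).card : ℝ) = q + S.card := by rw [hq]; ring
    rw [hE]
    apply le_of_mul_le_mul_right _ (show (0 : ℝ) < S.card - 2 by linarith)
    have e : q * ((S.card - 2) * (q + S.card) + (q - δ)) * (S.card - 2) -
        (S.card - 1) * (q - δ) * (q + S.card) * (S.card - 2) =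
        S.card * (S.card - 1) * (S.card - t) - t * q * (S.card - 2) := by
      linear_combination ((S.card - 2) * q + S.card * (S.card - 1)) * hδ
    linarith

end Pool.Agent.Lib.MP_943ac9_co
end

-- part Pool.Agent.Lib.MP_943ac9_co.Final
section

/-! Conclusion. -/

namespace Pool.Agent.Lib.MP_943ac9_co

open Finset Matrix

variable {V : Type*} [Fintype V] [DecidableEq V] {G : SimpleGraph V} [DecidableRel G.Adj]

lemma conn_univ (hc : G.Connected) : Conn G univ := by
  intro A _ hne hne2
  obtain ⟨a, ha⟩ := hne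
  obtain ⟨b, hb⟩ : ∃ b, b ∉ A := by
    by_contra h
    push Not at h
    exact hne2 (eq_univ_of_forall h)
  obtain ⟨w⟩ := hc.preconnected a b
  obtain ⟨d, -, h1, h2⟩ := w.exists_boundary_dart (A : Set V) ha hb
  exact ⟨d.fst, h1, d.snd, mem_univ _, h2, d.adj⟩

lemma exists_tri (h3 : 3 ≤ G.cliqueNum) : ¬ TriFree G univ := by
  obtain ⟨s, hs⟩ := G.exists_isNClique_cliqueNum
  obtain ⟨t, ht, ht3⟩ := Finset.exists_subset_card_eq (s := s) (n := 3) (by rw [hs.card_eq]; exact h3)
  have : G.IsNClique 3 t := ⟨hs.isClique.subset (by exact_mod_cast ht), ht3⟩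
  obtain ⟨a, b, c, hab, hac, hbc, -⟩ := SimpleGraph.is3Clique_iff.1 this
  exact fun h => h a (mem_univ _) b (mem_univ _) c (mem_univ _) hab hbc hac

lemma le_of_pr {ι : Type*} [Fintype ι] (x : V → ι → ℝ) {c s : ℝ} (h : Pr G x univ c) (hc : 0 ≤ c)
    (hs : ∑ v, ∑ w, gram x v w ^ 2 = s) (hle : s ≤ tau G x univ) : s ≤ c := by
  have h1 := h univ id (fun _ => 1) ⟨subset_rfl, fun _ _ => mem_univ _, fun _ _ => rfl,
    fun _ _ => rfl, fun _ => by simp⟩
  have h2 : Sh x univ id (fun _ => 1) = s := by simp [Sh, hs]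
  rw [h2] at h1
  by_contra hcon
  push Not at hcon
  nlinarith

theorem posEnergy (hc : G.Connected) (h3 : 3 ≤ G.cliqueNum) (hA : (G.adjMatrix ℝ).IsHermitian) :
    (Fintype.card V : ℝ) ≤ ∑ i with 0 < hA.eigenvalues i, hA.eigenvalues i ^ 2 := by
  obtain ⟨U, h1, -, h2⟩ := exists_spec hA
  set l := hA.eigenvalues with hl
  set μ : V → ℝ := fun j => max (-l j) 0 with hμ
  set x : V → V → ℝ := fun v j => √(μ j) * U v j with hx
  have hg : ∀ v w, gram x v w = (U * diagonal μ * Uᵀ) v w := by
    intro v w
    rw [spec_apply, gram]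
    refine Finset.sum_congr rfl fun j _ => ?_
    have : √(μ j) * √(μ j) = μ j := Real.mul_self_sqrt (le_max_right _ _)
    simp only [hx]
    linear_combination (U v j * U w j) * this
  set s := ∑ j, μ j * μ j with hs
  have e1 : ∑ v, ∑ w, gram x v w ^ 2 = s := by
    rw [hs, ← spec_inner h1]; simp only [hg, sq]
  have eA : ∀ f : V → V → ℝ, ∑ v, ∑ w, G.adjMatrix ℝ v w * f v w = ∑ e ∈ E G univ, f e.1 e.2 := by
    intro f
    rw [sum_E]
    simp [SimpleGraph.adjMatrix_apply]
  have e2 : ∑ e ∈ E G univ, gram x e.1 e.2 = -s := by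
    rw [← eA]
    have := spec_inner h1 l μ
    rw [← h2] at this
    simp only [hg, this, hs, ← Finset.sum_neg_distrib]
    refine Finset.sum_congr rfl fun j _ => ?_
    simp only [hμ]
    rcases le_total 0 (l j) with h0 | h0
    · rw [max_eq_right (by linarith)]; ring
    · rw [max_eq_left (by linarith)]; ring
  have e3 : ((E G univ).card : ℝ) = ∑ j, l j * l j := by
    rw [← spec_inner h1 l l, ← h2, eA fun v w => G.adjMatrix ℝ v w]
    rw [Finset.sum_congr rfl (g := fun _ => (1 : ℝ))]
    · simp
    · intro e he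
      simp [SimpleGraph.adjMatrix_apply, (mem_E.1 he).2.2]
  have e4 : ∑ i with 0 < l i, l i ^ 2 + s = ∑ j, l j * l j := by
    rw [Finset.sum_filter, hs, ← Finset.sum_add_distrib]
    refine Finset.sum_congr rfl fun j _ => ?_
    simp only [hμ]
    split_ifs with h0
    · rw [max_eq_right (by linarith)]; ring
    · rw [max_eq_left (by linarith)]; ring
  have hconn := conn_univ hc
  have htri := exists_tri h3
  have hne : (univ : Finset V).Nonempty := by
    have := hc.nonempty
    exact univ_nonempty
  suffices h : s ≤ (E G univ).card - Fintype.card V by linarith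
  have key : ∀ a b c, G.Adj a b → G.Adj a c → G.Adj b c → 0 ≤ gram x a b →
      s ≤ (E G univ).card - Fintype.card V := by
    intro a b c hab hac hbc hpos
    have hcert := cert_conn (conn_del hconn (mem_univ c) hac hbc) hne
    have h5 := le_of_pr x (hcert.pr x hne) (le_trans (by positivity) hcert.lower) e1 (by
      rw [sum_E_del (mem_univ a) (mem_univ b) hab] at e2
      have : -∑ e ∈ E (del G a b) univ, gram x e.1 e.2 ≤ tau (del G a b) x univ := by
        rw [← Finset.sum_neg_distrib]
        exact Finset.sum_le_sum fun e _ => neg_le_abs _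
      have h6 := gram_comm x a b
      simp only at e2
      linarith)
    have h7 : ((E G univ).card : ℝ) = (E (del G a b) univ).card + 2 := by
      exact_mod_cast card_E_del (mem_univ a) (mem_univ b) hab
    rw [qq, card_univ] at h5
    linarith
  by_cases hprod : ∀ a b c, G.Adj a b → G.Adj b c → G.Adj a c →
      gram x a b * gram x b c * gram x a c ≤ 0
  · have h6 : 2 * ((univ : Finset V).card : ℝ) ≤ (E G univ).card + 2 := by
      exact_mod_cast hconn.card_le hne
    have h7 : (2 : ℝ) ≤ (univ : Finset V).card := by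
      unfold TriFree at htri
      push Not at htri
      obtain ⟨a, -, b, -, c, -, hab, -, -⟩ := htri
      have := card_le_card (subset_univ {a, b})
      rw [card_pair (G.ne_of_adj hab)] at this
      exact_mod_cast this
    have h5 := le_of_pr x (main_pr x hprod hconn htri) (by rw [qq]; linarith) e1 (by
      have : -∑ e ∈ E G univ, gram x e.1 e.2 ≤ tau G x univ := by
        rw [← Finset.sum_neg_distrib]
        exact Finset.sum_le_sum fun e _ => neg_le_abs _
      linarith)
    rw [qq, card_univ] at h5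
    linarith
  · push Not at hprod
    obtain ⟨a, b, c, hab, hbc, hac, hp⟩ := hprod
    by_cases p1 : 0 ≤ gram x a b
    · exact key a b c hab hac hbc p1
    by_cases p2 : 0 ≤ gram x b c
    · exact key b c a hbc hab.symm hac.symm p2
    by_cases p3 : 0 ≤ gram x a c
    · exact key a c b hac hab hbc.symm p3
    push Not at p1 p2 p3
    have := mul_pos_of_neg_of_neg p1 p2
    nlinarith

end Pool.Agent.Lib.MP_943ac9_co
end
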